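import Mathlib
import Pool.Agent.H597Z.BMD

set_option autoImplicit false

namespace Pool.Agent.H184Z.RZ

open Filter Topology Finset MvPolynomial MonomialOrder MeasureTheory Pool.Agent.H597Z.BM

variable {n : ℕ}

structure CK (K : Set (Fin n → ℂ)) : Prop where
  cpt : IsCompact K
  ne : K.Nonempty

variable {K : Set (Fin n → ℂ)}

lemma CK.le_nK (h : CK K) (p : MvPolynomial (Fin n) ℂ) {x : Fin n → ℂ} (hx : x ∈ K) :
    ‖eval x p‖ ≤ nK K p :=
  le_csSup (h.cpt.image (cont_eval p).norm).bddAbove ⟨x, hx, rfl⟩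

lemma CK.nK_le (h : CK K) {p : MvPolynomial (Fin n) ℂ} {B : ℝ}
    (hB : ∀ x ∈ K, ‖eval x p‖ ≤ B) : nK K p ≤ B :=
  csSup_le (h.ne.image _) (by rintro _ ⟨x, hx, rfl⟩; exact hB x hx)

lemma CK.exists_nK (h : CK K) (p : MvPolynomial (Fin n) ℂ) :
    ∃ x ∈ K, nK K p = ‖eval x p‖ := by
  obtain ⟨x, hx, hx'⟩ := h.cpt.exists_isMaxOn h.ne (cont_eval p).norm.continuousOn
  exact ⟨x, hx, le_antisymm (h.nK_le fun y hy => hx' hy) (h.le_nK p hx)⟩

lemma CK.nK_nonneg (h : CK K) (p : MvPolynomial (Fin n) ℂ) : 0 ≤ nK K p := by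
  obtain ⟨x, _, hx⟩ := h.exists_nK p
  rw [hx]; exact norm_nonneg _

lemma CK.nK_mul (h : CK K) (p q : MvPolynomial (Fin n) ℂ) :
    nK K (p * q) ≤ nK K p * nK K q :=
  h.nK_le fun x hx => by
    rw [map_mul, norm_mul]
    exact mul_le_mul (h.le_nK p hx) (h.le_nK q hx) (norm_nonneg _) (h.nK_nonneg p)

lemma CK.nK_mono {K' : Set (Fin n → ℂ)} (h : CK K) (h' : CK K') (hs : K ⊆ K')
    (p : MvPolynomial (Fin n) ℂ) : nK K p ≤ nK K' p :=
  h.nK_le fun _ hx => h'.le_nK p (hs hx)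

lemma CK.exists_bound (h : CK K) : ∃ R : ℝ, 1 ≤ R ∧ ∀ x ∈ K, ‖x‖ ≤ R := by
  obtain ⟨R, hR⟩ := h.cpt.isBounded.exists_norm_le
  exact ⟨max R 1, le_max_right _ _, fun x hx => (hR x hx).trans (le_max_left _ _)⟩

lemma CK.union {K' : Set (Fin n → ℂ)} (h : CK K) (h' : IsCompact K') : CK (K ∪ K') :=
  ⟨h.cpt.union h', h.ne.mono Set.subset_union_left⟩

lemma ck_ball (x : Fin n → ℂ) {r : ℝ} (hr : 0 ≤ r) : CK (Metric.closedBall x r) :=
  ⟨isCompact_closedBall x r, Metric.nonempty_closedBall.mpr hr⟩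

lemma norm_mon_le {k : ℕ} (b : II n k) {R : ℝ} {x : Fin n → ℂ} (hx : ‖x‖ ≤ R) :
    ‖mon n k b x‖ ≤ R ^ (toF b).degree := by
  rw [mon, norm_prod, toF_degree, ← Finset.prod_pow_eq_pow_sum]
  refine Finset.prod_le_prod (fun _ _ => norm_nonneg _) fun i _ => ?_
  rw [norm_pow]
  exact pow_le_pow_left₀ (norm_nonneg _) ((norm_le_pi_norm x i).trans hx) _

lemma CK.le_VV (h : CK K) (k : ℕ) (z : II n k → Fin n → ℂ) (hz : ∀ a, z a ∈ K) :
    ‖vdm (mon n k) z‖ ≤ VV K k := by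
  obtain ⟨R, _, hR⟩ := h.exists_bound
  exact le_csSup ⟨_, by
    rintro _ ⟨z, hz, rfl⟩
    exact norm_vdm_le' _ _ (fun b => R ^ (toF b).degree)
      fun i a => norm_mon_le i (hR _ (hz a))⟩ ⟨z, hz, rfl⟩

lemma CK.VV_le (h : CK K) (k : ℕ) {B : ℝ}
    (hB : ∀ z : II n k → Fin n → ℂ, (∀ a, z a ∈ K) → ‖vdm (mon n k) z‖ ≤ B) : VV K k ≤ B := by
  obtain ⟨x, hx⟩ := h.ne
  exact csSup_le ⟨_, fun _ => x, fun _ => hx, rfl⟩ (by rintro _ ⟨z, hz, rfl⟩; exact hB z hz)

lemma CK.VV_nonneg (h : CK K) (k : ℕ) : 0 ≤ VV K k := by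
  obtain ⟨x, hx⟩ := h.ne
  exact (norm_nonneg _).trans (h.le_VV k (fun _ => x) fun _ => hx)

lemma CK.VV_mono {K' : Set (Fin n → ℂ)} (h : CK K) (h' : CK K') (hs : K ⊆ K') (k : ℕ) :
    VV K k ≤ VV K' k :=
  h.VV_le k fun z hz => h'.le_VV k z fun a => hs (hz a)

lemma CK.YY_nonneg (h : CK K) (α : Fin n →₀ ℕ) : 0 ≤ YY K α :=
  le_ciInf fun p => h.nK_nonneg p.1

lemma CK.YY_le (h : CK K) {α : Fin n →₀ ℕ} (p : MonD α) : YY K α ≤ nK K p.1 :=
  ciInf_le ⟨0, by rintro _ ⟨q, rfl⟩; exact h.nK_nonneg _⟩ p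

lemma CK.prod_le_VV (h : CK K) (k : ℕ) : ∏ a : II n k, YY K (toF a) ≤ VV K k := by
  obtain ⟨z, hz, hz'⟩ := leja (dl n k) (mon n k) K h.ne (fun a => YY K (toF a))
    (fun a => h.YY_nonneg _) (fun a c hc => by
      obtain ⟨x, hx, hx'⟩ := h.exists_nK (poly c)
      exact ⟨x, hx, by rw [← eval_poly, ← hx']; exact h.YY_le ⟨_, monD_of_mon a c hc⟩⟩)
  exact hz'.trans (h.le_VV k z hz)

/-- restriction of a polynomial to the complex line `t ↦ t • u + z`. -/
noncomputable def line (u z : Fin n → ℂ) (p : MvPolynomial (Fin n) ℂ) : Polynomial ℂ :=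
  aeval (fun i => Polynomial.C (u i) * Polynomial.X + Polynomial.C (z i)) p

lemma eval_line (u z : Fin n → ℂ) (t : ℂ) (f : MvPolynomial (Fin n) ℂ) :
    (line u z f).eval t = eval (t • u + z) f := by
  unfold line
  induction f using MvPolynomial.induction_on with
  | C c => simp
  | add f f' h1 h2 => simp [h1, h2]
  | mul_X f i h1 =>
    rw [map_mul, Polynomial.eval_mul, h1, map_mul, aeval_X, eval_X]
    simp only [Polynomial.eval_add, Polynomial.eval_mul, Polynomial.eval_C, Polynomial.eval_X,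
      Pi.add_apply, Pi.smul_apply, smul_eq_mul, mul_comm t]

lemma line_mul (u z : Fin n → ℂ) (p q : MvPolynomial (Fin n) ℂ) :
    line u z (p * q) = line u z p * line u z q := map_mul _ _ _

lemma line_deg (u z : Fin n → ℂ) {q : MvPolynomial (Fin n) ℂ} {j : ℕ} (hq : q.totalDegree ≤ j) :
    (line u z q).natDegree ≤ j := by
  simpa [line] using aeval_natDegree_le q hq
    (fun i => Polynomial.C (u i) * Polynomial.X + Polynomial.C (z i)) (n := 1)
    fun i => Polynomial.natDegree_linear_le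

lemma eval_le_mahler0 (P : Polynomial ℂ) : ‖P.eval 0‖ ≤ P.mahlerMeasure := by
  have := P.norm_coeff_le_choose_mul_mahlerMeasure 0
  rw [Polynomial.coeff_zero_eq_eval_zero] at this
  simpa using this

lemma prod_lb (p q : MvPolynomial (Fin n) ℂ) {j : ℕ} (hq : q.totalDegree ≤ j) (y w : Fin n → ℂ)
    {r T M : ℝ} (hT : 0 < T) (hw : ‖w - y‖ ≤ T * r)
    (hM : ∀ z, ‖z - y‖ ≤ r → ‖eval z (p * q)‖ ≤ M) :
    ‖eval y p‖ * ‖eval w q‖ ≤ (T + 1) ^ j * M := by
  let u : Fin n → ℂ := ((T⁻¹ : ℝ) : ℂ) • (w - y)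
  have h1 : ‖eval y p‖ ≤ (line u y p).mahlerMeasure := by
    have := eval_le_mahler0 (line u y p)
    rw [eval_line] at this
    simpa using this
  have h2 : ‖eval w q‖ ≤ (T + 1) ^ j * (line u y q).mahlerMeasure := by
    have := eval_le_mahler (line u y q) T hT.le (j := j) (line_deg u y hq)
    have e : (T : ℂ) • u + y = w := by
      simp only [u, smul_smul]
      rw [← Complex.ofReal_mul, mul_inv_cancel₀ hT.ne']
      simp
    rwa [eval_line, e] at this
  have h3 : (line u y (p * q)).mahlerMeasure ≤ M := by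
    refine mahler_le _ _ fun t ht => ?_
    rw [eval_line]
    refine hM _ ?_
    rw [add_sub_cancel_right, norm_smul, ht, one_mul, norm_smul, Complex.norm_real,
      Real.norm_of_nonneg (by positivity), inv_mul_le_iff₀ hT]
    exact hw
  rw [line_mul, Polynomial.mahlerMeasure_mul] at h3
  calc ‖eval y p‖ * ‖eval w q‖
      ≤ (line u y p).mahlerMeasure * ((T + 1) ^ j * (line u y q).mahlerMeasure) :=
        mul_le_mul h1 h2 (norm_nonneg _) (Polynomial.mahlerMeasure_nonneg _)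
    _ = (T + 1) ^ j * ((line u y p).mahlerMeasure * (line u y q).mahlerMeasure) := by ring
    _ ≤ _ := by gcongr

lemma bw_ball (q : MvPolynomial (Fin n) ℂ) {j : ℕ} (hq : q.totalDegree ≤ j) (y w : Fin n → ℂ)
    {r T M : ℝ} (hT : 0 < T) (hw : ‖w - y‖ ≤ T * r)
    (hM : ∀ z, ‖z - y‖ ≤ r → ‖eval z q‖ ≤ M) : ‖eval w q‖ ≤ (T + 1) ^ j * M := by
  simpa using prod_lb 1 q hq y w hT hw (by simpa using hM)

/-- The abstract gain lemma. -/
lemma CK.gain (h : CK K) {k j : ℕ} {p : MvPolynomial (Fin n) ℂ}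
    (hp : degLex.Monic p) (hk : p.totalDegree ≤ k) {η m : ℝ} (hη : 0 ≤ η) (hη1 : η ≤ 1)
    (hm : 0 ≤ m) (ρ : MvPolynomial (Fin n) ℂ → ℝ) (hρ0 : ∀ f, 0 ≤ ρ f)
    (hρ : ∀ f, ρ f ≤ m * nK K f ^ 2)
    (hq : ∀ q : MvPolynomial (Fin n) ℂ, q.totalDegree ≤ j →
      ρ (p * q) ≤ m * η * nK K (p * q) ^ 2) {W A : ℝ} (hA : 0 ≤ A)
    (hW : ∀ g : II n (k + j) → MvPolynomial (Fin n) ℂ,
      (∀ z, vdm (mon n (k + j)) z = vdm (fun b x => eval x (g b)) z) → W ≤ A * ∏ b, ρ (g b)) :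
    W ≤ A * (m ^ NN n (k + j) * η ^ NN n j * VV K (k + j) ^ 2) := by
  classical
  let d := degLex.degree p
  have hd : d.degree ≤ k := by rw [degree_degLexDegree]; exact hk
  let D : Finset (II n (k + j)) := univ.filter fun b => d ≤ toF b ∧ (toF b - d).degree ≤ j
  let g : ∀ b : II n (k + j), MonD (toF b) := fun b =>
    if hb : b ∈ D then ⟨p * monomial (toF b - d) 1, hp.mul monic_monomial_one, by
      rw [degree_mul hp.ne_zero (degLex.monic_monomial_one).ne_zero, degree_monomial,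
        if_neg one_ne_zero]
      exact add_tsub_cancel_of_le (mem_filter.mp hb).2.1⟩
    else ⟨monomial (toF b) 1, monic_monomial_one, by simp [degree_monomial]⟩
  let f : II n (k + j) → (Fin n → ℂ) → ℂ := fun b x => eval x (g b).1
  let lo : LinearOrder (II n (k + j)) := LinearOrder.lift'
    (fun b => toLex ((if b ∈ D then 0 else 1 : ℕ), Fintype.equivFin _ b))
    (fun a b hab => (Fintype.equivFin _).injective (congrArg (fun x => (ofLex x).2) hab))
  let gp : (II n (k + j) → ℂ) → MvPolynomial (Fin n) ℂ := fun c => ∑ b, C (c b) * (g b).1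
  have hgp : ∀ c x, eval x (gp c) = comb f c x := by
    intro c x; simp [gp, comb, f]
  let θ : II n (k + j) → ℝ := fun b => m * if b ∈ D then η else 1
  have hθ : ∀ b, 0 ≤ θ b := fun b => by simp only [θ]; split_ifs <;> positivity
  have hne : ∀ i, Nonempty {c // Mon lo i c} := fun i =>
    ⟨⟨Pi.single i 1, by simp, fun j hj => Pi.single_eq_of_ne (@ne_of_gt _ lo.toPreorder _ _ hj) _⟩⟩
  have hint : ∀ i c, Mon lo i c → ρ (gp c) ≤ θ i * nK K (gp c) ^ 2 := by
    intro i c hc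
    by_cases hi : i ∈ D
    · have e : gp c = p * ∑ b, if b ∈ D then monomial (toF b - d) (c b) else 0 := by
        rw [Finset.mul_sum]
        refine Finset.sum_congr rfl fun b _ => ?_
        by_cases hb : b ∈ D
        · simp only [g, hb, dif_pos, if_true]
          rw [mul_left_comm, C_mul_monomial, mul_one]
        · rw [hc.2 b, if_neg hb]
          · simp
          · change toLex ((if i ∈ D then 0 else 1 : ℕ), Fintype.equivFin _ i) <
              toLex ((if b ∈ D then 0 else 1 : ℕ), Fintype.equivFin _ b)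
            rw [Prod.Lex.toLex_lt_toLex]
            simp [hi, hb]
      rw [e]
      refine (hq _ ?_).trans ?_
      · refine totalDegree_finsetSum_le fun b _ => ?_
        split_ifs with hb
        · exact (totalDegree_monomial_le _ _).trans (mem_filter.mp hb).2.2
        · simp
      · simp only [θ, hi, if_true]
        exact le_rfl
    · simpa [θ, hi] using hρ (gp c)
  have h1 := le_prod_inf (T := fun i => {c // Mon lo i c}) (fun i c => nK K (gp c.1)) θ
    W A hA hθ (fun i c => h.nK_nonneg _) (fun t => by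
      refine (hW (fun b => gp (t b).1) fun z => ?_).trans ?_
      · simp only [hgp]
        rw [vdm_comb lo f _ fun i => (t i).2, vdm_monD g]
      · exact mul_le_mul_of_nonneg_left (Finset.prod_le_prod
          (fun _ _ => hρ0 _) fun i _ => hint i _ (t i).2) hA)
  have hY : ∀ i, 0 ≤ ⨅ c : {c // Mon lo i c}, nK K (gp c.1) := fun i =>
    le_ciInf fun c => h.nK_nonneg _
  obtain ⟨z, hz, hz'⟩ := leja lo f K h.ne (fun i => ⨅ c : {c // Mon lo i c}, nK K (gp c.1)) hY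
    (fun i c hc => by
      obtain ⟨x, hx, hx'⟩ := h.exists_nK (gp c)
      refine ⟨x, hx, ?_⟩
      rw [← hgp, ← hx']
      exact ciInf_le (f := fun c : {c // Mon lo i c} => nK K (gp c.1))
        ⟨0, by rintro _ ⟨q, rfl⟩; exact h.nK_nonneg _⟩ ⟨c, hc⟩)
  rw [vdm_monD g] at hz'
  have h2 := hz'.trans (h.le_VV _ z hz)
  have h3 : NN n j ≤ D.card := by
    have hle : ∀ b : II n j, (d + toF b).degree ≤ k + j := fun b => by
      rw [map_add]; exact add_le_add hd (toF_le b)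
    refine Finset.card_le_card_of_injOn (s := univ) (fun b => ofF _ (hle b)) ?_ ?_
    · intro b _
      simp [D, toF_le b]
    · intro a _ b _ hab
      have := congrArg toF hab
      simp only [toF_ofF, add_right_inj] at this
      exact toF_inj this
  refine h1.trans (mul_le_mul_of_nonneg_left ?_ hA)
  rw [Finset.prod_mul_distrib, Finset.prod_pow]
  refine mul_le_mul ?_ (pow_le_pow_left₀ (Finset.prod_nonneg fun i _ => hY i) h2 2)
    (by positivity) (by positivity)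
  simp only [θ]
  rw [Finset.prod_mul_distrib, Finset.prod_const, Finset.prod_ite_mem, univ_inter,
    Finset.prod_const]
  exact mul_le_mul_of_nonneg_left (pow_le_pow_of_le_one hη hη1 h3) (by positivity)

lemma ll_le_NN (hn : 1 ≤ n) {s j : ℕ} {T : ℝ} (hs : 1 ≤ s) (hT : (s : ℝ) ≤ T * j) :
    ll n s ≤ s * (2 * T * n) ^ n * NN n j := by
  have hs' : (1 : ℝ) ≤ s := by exact_mod_cast hs
  have hn' : (1 : ℝ) ≤ n := by exact_mod_cast hn
  have hT0 : 0 ≤ T := by
    by_contra h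
    have : T * j ≤ 0 := mul_nonpos_of_nonpos_of_nonneg (not_le.mp h).le (Nat.cast_nonneg _)
    linarith
  have h2 : (NN n s : ℝ) ≤ ((s : ℝ) + 1) ^ n := by exact_mod_cast NN_le s
  calc ll n s ≤ s * NN n s := ll_le s
    _ ≤ s * (2 * T * n * (j / n)) ^ n := by
      gcongr
      refine h2.trans (pow_le_pow_left₀ (by positivity) ?_ _)
      have : 2 * T * n * (j / n) = 2 * (T * j) := by field_simp
      linarith
    _ = s * (2 * T * n) ^ n * (j / n) ^ n := by rw [mul_pow _ (_ / _)]; ring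
    _ ≤ _ := mul_le_mul_of_nonneg_left (NN_ge hn j) (by positivity)

noncomputable def err (n : ℕ) (m : ℝ) (k : ℕ) : ℝ := NN n k * Real.log (m * NN n k) / ll n k

/-- exponential form of the gain lemma -/
lemma CK.gain_exp (h : CK K) (hn : 1 ≤ n) {k j : ℕ} {p : MvPolynomial (Fin n) ℂ}
    (hp : p ≠ 0) (hk : p.totalDegree ≤ k) {a m T : ℝ} (ha : 0 ≤ a)
    (hm : 1 ≤ m) (hs : 1 ≤ k + j) (hT : ((k + j : ℕ) : ℝ) ≤ T * j) (hV : 0 < VV K (k + j))
    (ρ : MvPolynomial (Fin n) ℂ → ℝ) (hρ0 : ∀ f, 0 ≤ ρ f)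
    (hρ : ∀ f, ρ f ≤ m * nK K f ^ 2)
    (hq : ∀ q : MvPolynomial (Fin n) ℂ, q.totalDegree ≤ j →
      ρ (p * q) ≤ m * Real.exp (-(2 * a * (k + j : ℕ))) * nK K (p * q) ^ 2) {W : ℝ} (hW0 : 0 ≤ W)
    (hW : ∀ g : II n (k + j) → MvPolynomial (Fin n) ℂ,
      (∀ z, vdm (mon n (k + j)) z = vdm (fun b x => eval x (g b)) z) →
        W ≤ ((NN n (k + j)).factorial : ℝ) ^ 2 * ∏ b, ρ (g b)) :
    W ^ ((1 : ℝ) / (2 * ll n (k + j))) ≤ Real.exp (Real.log (VV K (k + j)) / ll n (k + j) +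
      err n m (k + j) - a / (2 * T * n) ^ n) := by
  have hc : degLex.leadingCoeff p ≠ 0 := leadingCoeff_ne_zero_iff.mpr hp
  have hZ := h.gain (k := k) (j := j) (p := C (degLex.leadingCoeff p)⁻¹ * p)
    (by rw [MonomialOrder.Monic, leadingCoeff_mul, leadingCoeff_C, inv_mul_cancel₀ hc])
    ((totalDegree_mul _ _).trans (by simpa using hk))
    (η := Real.exp (-(2 * a * (k + j : ℕ)))) (Real.exp_pos _).le
    (Real.exp_le_one_iff.mpr (by have : 0 ≤ 2 * a * (k + j : ℕ) := by positivity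
                                 linarith)) (m := m) (by linarith) ρ hρ0 hρ (fun q hq' => by
      have e : C (degLex.leadingCoeff p)⁻¹ * p * q = p * (C (degLex.leadingCoeff p)⁻¹ * q) := by
        ring
      rw [e]
      exact hq _ ((totalDegree_mul _ _).trans (by simpa using hq'))) (by positivity) hW
  set s := k + j with hs'
  set N := NN n s with hN
  have hN1 : (1 : ℝ) ≤ N := by exact_mod_cast NN_pos s
  have hl := ll_pos hn (k := s) hs
  have hs1 : (1 : ℝ) ≤ s := by exact_mod_cast hs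
  have hn1 : (1 : ℝ) ≤ n := by exact_mod_cast hn
  have hT0 : 0 < T := by
    by_contra h
    have : T * j ≤ 0 := mul_nonpos_of_nonpos_of_nonneg (not_lt.mp h) (Nat.cast_nonneg _)
    linarith
  have hc : a / (2 * T * n) ^ n * ll n s ≤ a * s * NN n j := by
    calc a / (2 * T * n) ^ n * ll n s ≤ a / (2 * T * n) ^ n * (s * (2 * T * n) ^ n * NN n j) :=
          mul_le_mul_of_nonneg_left (ll_le_NN hn hs hT) (by positivity)
      _ = _ := by field_simp
  have hW : W ≤ Real.exp (2 * Real.log (VV K s) + 2 * (N * Real.log (m * N)) -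
      2 * (a / (2 * T * n) ^ n * ll n s)) := by
    refine hZ.trans ?_
    have h3 : (N.factorial : ℝ) ≤ (N : ℝ) ^ N := by exact_mod_cast Nat.factorial_le_pow _
    have h4 : m ^ N ≤ (m ^ N) ^ 2 := le_self_pow₀ (one_le_pow₀ hm) two_ne_zero
    have h5 : Real.exp (-(2 * a * s)) ^ NN n j ≤
        Real.exp (-(2 * (a / (2 * T * n) ^ n * ll n s))) := by
      rw [← Real.exp_nat_mul]
      gcongr
      linarith
    calc _ ≤ ((N : ℝ) ^ N) ^ 2 * ((m ^ N) ^ 2 *
          Real.exp (-(2 * (a / (2 * T * n) ^ n * ll n s))) * VV K s ^ 2) := by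
          gcongr
      _ = _ := by
          rw [sub_eq_add_neg, Real.exp_add, Real.exp_add, ← Real.log_pow, two_mul (Real.log _),
            two_mul (Real.log _), Real.exp_add, Real.exp_add, Real.exp_log hV,
            Real.exp_log (by positivity)]
          ring
  refine (Real.rpow_le_rpow hW0 hW (by positivity)).trans (le_of_eq ?_)
  rw [← Real.exp_mul]
  congr 1
  simp only [err, ← hN]
  field_simp

lemma err_tend (hn : 1 ≤ n) {A : ℝ} (hA : 1 ≤ A) : Tendsto (err n A) atTop (𝓝 0) :=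
  err_tendsto hn hA

lemma CK.VV_sq_le (h : CK K) {k : ℕ} (g : II n k → MvPolynomial (Fin n) ℂ)
    (hg : ∀ z, vdm (mon n k) z = vdm (fun b x => eval x (g b)) z) :
    VV K k ^ 2 ≤ ((NN n k).factorial : ℝ) ^ 2 * ∏ b, nK K (g b) ^ 2 := by
  rw [Finset.prod_pow, ← mul_pow]
  refine pow_le_pow_left₀ (h.VV_nonneg k) (h.VV_le k fun z hz => ?_) 2
  rw [hg]
  exact norm_vdm_le' _ _ _ fun i a => h.le_nK _ (hz a)

lemma ZZ_le (ν : Measure (Fin n → ℂ)) [IsFiniteMeasure ν] (hK : IsCompact K) (hν : ν Kᶜ = 0)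
    {k : ℕ} (g : II n k → MvPolynomial (Fin n) ℂ)
    (hg : ∀ z, vdm (mon n k) z = vdm (fun b x => eval x (g b)) z) :
    ZZ ν k ≤ ((NN n k).factorial : ℝ) ^ 2 * ∏ b, ∫ y, ‖eval y (g b)‖ ^ 2 ∂ν := by
  simp only [ZZ, hg]
  exact int_le_prod ν hK hν fun b => cont_eval _

lemma CK.int_le (h : CK K) (ν : Measure (Fin n → ℂ)) [IsFiniteMeasure ν] (hν : ν Kᶜ = 0)
    (p q : MvPolynomial (Fin n) ℂ) :
    ∫ y, ‖eval y (p * q)‖ ^ 2 ∂ν ≤ nK K q ^ 2 * ∫ y, ‖eval y p‖ ^ 2 ∂ν := by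
  rw [← integral_const_mul]
  refine integral_mono_ae (integrable_of_compact ν h.cpt hν ((cont_eval _).norm.pow 2))
    ((integrable_of_compact ν h.cpt hν ((cont_eval _).norm.pow 2)).const_mul _) ?_
  have : ∀ᵐ y ∂ν, y ∈ K := hν
  filter_upwards [this] with y hy
  rw [map_mul, norm_mul, mul_pow, mul_comm]
  gcongr
  exact h.le_nK q hy

end Pool.Agent.H184Z.RZ
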