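import Mathlib
import Pool.Agent.H184Z.RZ.A

set_option autoImplicit false

namespace Pool.Agent.H184Z.RZ

open Filter Topology Finset MvPolynomial MonomialOrder MeasureTheory Pool.Agent.H597Z.BM

variable {n : ℕ} {K : Set (Fin n → ℂ)}

/-- quantitative non-pluripolarity -/
structure NP (K : Set (Fin n → ℂ)) : Prop extends CK K where
  bd : ∃ A : ℝ, 0 ≤ A ∧ ∀ (k : ℕ) (p : MvPolynomial (Fin n) ℂ), p.totalDegree ≤ k →
    ∀ z : Fin n → ℂ, ‖z‖ ≤ 1 → ‖eval z p‖ ≤ nK K p * Real.exp (k * A)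

lemma NP.mono {K' : Set (Fin n → ℂ)} (h : NP K) (h' : CK K') (hs : K ⊆ K') : NP K' := by
  obtain ⟨A, hA, hA'⟩ := h.bd
  refine ⟨h', A, hA, fun k p hp z hz => (hA' k p hp z hz).trans ?_⟩
  exact mul_le_mul_of_nonneg_right (h.toCK.nK_mono h' hs p) (Real.exp_pos _).le

lemma NP.ball (h : NP K) (R : ℝ) : ∃ A : ℝ, 1 ≤ A ∧ ∀ (k : ℕ) (p : MvPolynomial (Fin n) ℂ),
    p.totalDegree ≤ k → ∀ z : Fin n → ℂ, ‖z‖ ≤ R → ‖eval z p‖ ≤ nK K p * Real.exp (k * A) := by
  obtain ⟨A, hA, hA'⟩ := h.bd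
  have h1 : 0 ≤ Real.log (max R 1 + 1) := Real.log_nonneg (by have := le_max_right R 1; linarith)
  refine ⟨A + Real.log (max R 1 + 1) + 1, by linarith, fun k p hp z hz => ?_⟩
  have := bw_ball p hp 0 z (r := 1) (T := max R 1) (M := nK K p * Real.exp (k * A))
    (by positivity) (by simpa using Or.inl hz) (fun z hz => hA' k p hp z (by simpa using hz))
  refine this.trans ?_
  have e : (max R 1 + 1) ^ k = Real.exp (k * Real.log (max R 1 + 1)) := by
    rw [← Real.log_pow, Real.exp_log (by positivity)]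
  rw [e, mul_left_comm, ← Real.exp_add]
  have := h.toCK.nK_nonneg p
  gcongr
  have : (0 : ℝ) ≤ k := Nat.cast_nonneg _
  nlinarith

lemma NP.YY_lb (h : NP K) : ∃ A : ℝ, 0 ≤ A ∧ ∀ α, Real.exp (-(α.degree * A)) ≤ YY K α := by
  obtain ⟨A, hA, hA'⟩ := h.bd
  refine ⟨A, hA, fun α => le_ciInf fun p => ?_⟩
  have := coeff_le n p.1 _ (fun z hz => hA' _ p.1 p.deg.le z (by
    rw [pi_norm_le_iff_of_nonneg zero_le_one]
    exact fun i => (hz i).le)) (degLex.degree p.1)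
  rw [p.2.1.coeff_degree, norm_one] at this
  rw [Real.exp_neg, inv_le_iff_one_le_mul₀ (Real.exp_pos _)]
  exact this

lemma NP.YY_pos (h : NP K) (α : Fin n →₀ ℕ) : 0 < YY K α := by
  obtain ⟨A, _, hA⟩ := h.YY_lb
  exact (Real.exp_pos _).trans_le (hA α)

lemma CK.YY_ub (h : CK K) {R : ℝ} (hR : ∀ x ∈ K, ‖x‖ ≤ R) (α : Fin n →₀ ℕ) :
    YY K α ≤ R ^ α.degree := by
  refine (h.YY_le ⟨monomial α 1, monic_monomial_one, by classical simp [degree_monomial]⟩).trans
    (h.nK_le fun x hx => ?_)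
  rw [eval_monomial, one_mul, Finsupp.prod_fintype _ _ (by simp), norm_prod, Finsupp.degree_eq_sum,
    ← Finset.prod_pow_eq_pow_sum]
  refine Finset.prod_le_prod (fun _ _ => norm_nonneg _) fun i _ => ?_
  rw [norm_pow]
  exact pow_le_pow_left₀ (norm_nonneg _) ((norm_le_pi_norm x i).trans (hR x hx)) _

lemma NP.YY_add (h : NP K) (α β : Fin n →₀ ℕ) : YY K (α + β) ≤ YY K α * YY K β := by
  rw [← div_le_iff₀ (h.YY_pos β)]
  refine le_ciInf fun p => ?_
  have hp : 0 < nK K p.1 := (h.YY_pos α).trans_le (h.toCK.YY_le p)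
  rw [div_le_iff₀ (h.YY_pos β), ← div_le_iff₀' hp]
  refine le_ciInf fun q => ?_
  rw [div_le_iff₀' hp]
  refine (h.toCK.YY_le ⟨p.1 * q.1, p.2.1.mul q.2.1, ?_⟩).trans (h.toCK.nK_mul _ _)
  rw [degree_mul p.2.1.ne_zero q.2.1.ne_zero, p.2.2, q.2.2]

lemma NP.vdm_le (h : NP K) (k : ℕ) (z : II n k → Fin n → ℂ) (hz : ∀ a, z a ∈ K) :
    ‖vdm (mon n k) z‖ ≤ (NN n k).factorial * ∏ a : II n k, (2 * YY K (toF a)) := by
  choose t ht using fun a : II n k => exists_lt_of_ciInf_lt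
    (show YY K (toF a) < 2 * YY K (toF a) by have := h.YY_pos (toF a); linarith)
  rw [← vdm_monD t]
  exact norm_vdm_le' _ _ _ fun i a => (h.toCK.le_nK _ (hz a)).trans (ht i).le

lemma NP.VV_pos (h : NP K) (k : ℕ) : 0 < VV K k :=
  (Finset.prod_pos fun _ _ => h.YY_pos _).trans_le (h.toCK.prod_le_VV k)

lemma ll_lim (hn : 1 ≤ n) :
    ∃ c : ℝ, 0 < c ∧ Tendsto (fun k : ℕ => ll n k / (k : ℝ) ^ (n + 1)) atTop (𝓝 c) := by
  obtain ⟨L', hL'⟩ := SS_tendsto hn (h := fun β => -(β.degree : ℝ)) (fun β => by simp)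
    (fun α β => by simp [add_comm]) 1 zero_le_one (fun β => by simp)
  have e : ∀ k, SS (fun β : Fin n →₀ ℕ => -(β.degree : ℝ)) k = -ll n k := by
    intro k; simp [SS, ll_eq]
  simp only [e] at hL'
  have hn' : (0 : ℝ) < n := by exact_mod_cast hn
  have hneg : L' ≤ -(1 / (2 * (n : ℝ) ^ n)) := by
    refine le_of_tendsto hL' ?_
    filter_upwards [eventually_gt_atTop 0] with k hk0
    have hk' : (0 : ℝ) < k := by exact_mod_cast hk0
    have h1 := le_ll hn k
    have h2 := NN_ge hn k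
    rw [neg_div, neg_le_neg_iff, div_le_div_iff₀ (by positivity) (by positivity)]
    rw [div_pow, div_le_iff₀ (by positivity)] at h2
    have h3 : (0 : ℝ) < (n : ℝ) ^ n := by positivity
    calc 1 * (k : ℝ) ^ (n + 1) = k * k ^ n := by ring
      _ ≤ k * (NN n k * n ^ n) := by gcongr
      _ = (k * NN n k) * n ^ n := by ring
      _ ≤ (2 * ll n k) * n ^ n := by gcongr
      _ = _ := by ring
  refine ⟨-L', ?_, hL'.neg.congr fun k => by ring⟩
  have : 0 < 1 / (2 * (n : ℝ) ^ n) := by positivity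
  linarith

lemma SS_lim_le (hn : 1 ≤ n) {h : (Fin n →₀ ℕ) → ℝ} (h0 : ∀ β, h β ≤ 0)
    (hs : ∀ α β, h (α + β) ≤ h α + h β) {L : ℝ}
    (hL : Tendsto (fun k : ℕ => SS h k / (k : ℝ) ^ (n + 1)) atTop (𝓝 L)) (m : ℕ) :
    L ≤ SS h m / ((m : ℝ) + n) ^ (n + 1) := by
  have hn' : (1 : ℝ) ≤ n := by exact_mod_cast hn
  have hmn : (0 : ℝ) < m + n := by positivity
  have h1 : Tendsto (fun k : ℕ => ((⌊((m : ℝ) + n)⁻¹ * k⌋₊ : ℝ) / k) ^ (n + 1) * SS h m) atTop
      (𝓝 ((((m : ℝ) + n)⁻¹) ^ (n + 1) * SS h m)) :=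
    (((tendsto_nat_floor_mul_div_atTop (by positivity)).comp
      tendsto_natCast_atTop_atTop).pow _).mul_const _
  have h2 : (((m : ℝ) + n)⁻¹) ^ (n + 1) * SS h m = SS h m / ((m : ℝ) + n) ^ (n + 1) := by
    rw [inv_pow]; ring
  rw [h2] at h1
  refine le_of_tendsto_of_tendsto hL h1 ?_
  filter_upwards [eventually_gt_atTop 0] with k hk0
  have hk' : (0 : ℝ) < k := by exact_mod_cast hk0
  have h3 : ⌊((m : ℝ) + n)⁻¹ * k⌋₊ * (m + n) ≤ k := by
    have := Nat.floor_le (a := ((m : ℝ) + n)⁻¹ * k) (by positivity)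
    rw [inv_mul_eq_div, le_div_iff₀ hmn] at this
    rw [inv_mul_eq_div]
    exact_mod_cast this
  rw [div_pow, div_mul_eq_mul_div]
  exact div_le_div_of_nonneg_right (SS_tile h0 hs h3) (by positivity)

noncomputable def DD (K : Set (Fin n → ℂ)) : ℝ :=
  limUnder atTop fun k : ℕ => Real.log (VV K k) / ll n k

noncomputable def hh (K : Set (Fin n → ℂ)) (R : ℝ) (α : Fin n →₀ ℕ) : ℝ :=
  Real.log (YY K α) - α.degree * Real.log R

lemma NP.hh_le (h : NP K) {R : ℝ} (hR' : ∀ x ∈ K, ‖x‖ ≤ R) (α : Fin n →₀ ℕ) : hh K R α ≤ 0 := by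
  have := Real.log_le_log (h.YY_pos α) (h.toCK.YY_ub hR' α)
  rw [Real.log_pow] at this
  unfold hh
  linarith

lemma NP.hh_add (h : NP K) (R : ℝ) (α β : Fin n →₀ ℕ) : hh K R (α + β) ≤ hh K R α + hh K R β := by
  have := Real.log_le_log (h.YY_pos _) (h.YY_add α β)
  rw [Real.log_mul (h.YY_pos α).ne' (h.YY_pos β).ne'] at this
  unfold hh
  rw [map_add]
  push_cast
  linarith

lemma NP.lim (h : NP K) (hn : 1 ≤ n) {R c : ℝ} (hR : 1 ≤ R) (hR' : ∀ x ∈ K, ‖x‖ ≤ R) (hc : 0 < c)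
    (hc' : Tendsto (fun k : ℕ => ll n k / (k : ℝ) ^ (n + 1)) atTop (𝓝 c)) :
    Tendsto (fun k : ℕ => Real.log (VV K k) / ll n k) atTop (𝓝 (DD K)) ∧
    Tendsto (fun k : ℕ => SS (hh K R) k / (k : ℝ) ^ (n + 1)) atTop
      (𝓝 (c * (DD K - Real.log R))) := by
  obtain ⟨A, hA, hA'⟩ := h.YY_lb
  have hlR := Real.log_nonneg hR
  obtain ⟨L, hL⟩ := SS_tendsto hn (h := hh K R) (h.hh_le hR') (h.hh_add R) (A + Real.log R)
    (by positivity) (fun α => by
      have := Real.log_le_log (Real.exp_pos _) (hA' α)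
      rw [Real.log_exp] at this
      unfold hh
      linarith)
  have h1 : Tendsto (fun k : ℕ => Real.log (∏ a : II n k, YY K (toF a)) / ll n k) atTop
      (𝓝 (L / c + Real.log R)) := by
    refine ((hL.div hc' hc.ne').add_const _).congr' ?_
    filter_upwards [eventually_gt_atTop 0] with k hk
    have := ll_pos hn hk
    have hk' : (0 : ℝ) < k := by exact_mod_cast hk
    rw [Real.log_prod fun a _ => (h.YY_pos _).ne']
    simp only [Pi.div_apply, SS, hh]
    rw [Finset.sum_sub_distrib, ← Finset.sum_mul, ← ll_eq]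
    field_simp
    ring
  have h2 := h1.add (err_tendsto hn (A := 2) one_le_two)
  rw [add_zero] at h2
  have h3 : Tendsto (fun k : ℕ => Real.log (VV K k) / ll n k) atTop
      (𝓝 (L / c + Real.log R)) := by
    refine tendsto_of_tendsto_of_tendsto_of_le_of_le' h1 h2 ?_ ?_
    · filter_upwards [eventually_gt_atTop 0] with k hk
      exact div_le_div_of_nonneg_right (Real.log_le_log (Finset.prod_pos fun _ _ => h.YY_pos _)
        (h.toCK.prod_le_VV k)) (ll_pos hn hk).le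
    · filter_upwards [eventually_gt_atTop 0] with k hk
      rw [← add_div]
      refine div_le_div_of_nonneg_right ?_ (ll_pos hn hk).le
      have hp : 0 < ∏ a : II n k, YY K (toF a) := Finset.prod_pos fun _ _ => h.YY_pos _
      have hN : (0 : ℝ) < NN n k := by exact_mod_cast NN_pos k
      rw [← Real.log_pow, ← Real.log_mul hp.ne' (by positivity)]
      refine Real.log_le_log (h.VV_pos k) (h.toCK.VV_le k fun z hz => (h.vdm_le k z hz).trans ?_)
      have h3 : ((NN n k).factorial : ℝ) ≤ (NN n k : ℝ) ^ NN n k := by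
        exact_mod_cast Nat.factorial_le_pow _
      rw [Finset.prod_mul_distrib, Finset.prod_const, card_univ]
      calc _ ≤ (NN n k : ℝ) ^ NN n k * (2 ^ NN n k * ∏ a : II n k, YY K (toF a)) :=
            mul_le_mul_of_nonneg_right h3 (by positivity)
        _ = _ := by ring
  have h4 : DD K = L / c + Real.log R := h3.limUnder_eq
  rw [h4]
  refine ⟨h3, ?_⟩
  have : c * (L / c + Real.log R - Real.log R) = L := by field_simp; ring
  rwa [this]

lemma NP.tendsto (h : NP K) (hn : 1 ≤ n) :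
    Tendsto (fun k : ℕ => Real.log (VV K k) / ll n k) atTop (𝓝 (DD K)) := by
  obtain ⟨R, hR, hR'⟩ := h.toCK.exists_bound
  obtain ⟨c, hc, hc'⟩ := ll_lim hn
  exact (h.lim hn hR hR' hc hc').1

lemma NP.outer (h : NP K) (hn : 1 ≤ n) {R : ℝ} (hR : 1 ≤ R) {γ : ℝ} (hγ : 0 < γ) :
    ∃ η : ℝ, 0 < η ∧ ∀ K' : Set (Fin n → ℂ), CK K' → K ⊆ K' → K' ⊆ Metric.cthickening η K →
      (∀ x ∈ K', ‖x‖ ≤ R) → DD K' ≤ DD K + γ := by
  by_cases hR' : ∀ x ∈ K, ‖x‖ ≤ R
  swap
  · exact ⟨1, one_pos, fun K' _ hs _ hb => absurd (fun x hx => hb x (hs hx)) hR'⟩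
  obtain ⟨c, hc, hc'⟩ := ll_lim hn
  have h1 := (h.lim hn hR hR' hc hc').2
  have h2 : Tendsto (fun k : ℕ => SS (hh K R) k / (k : ℝ) ^ (n + 1) * ((1 + n * ((k : ℝ))⁻¹) ^ (n + 1))⁻¹)
      atTop (𝓝 (c * (DD K - Real.log R) * (((1 : ℝ) + n * 0) ^ (n + 1))⁻¹)) :=
    h1.mul ((((tendsto_inv_atTop_nhds_zero_nat.const_mul (n : ℝ)).const_add 1).pow (n + 1)).inv₀
      (by simp))
  simp only [mul_zero, add_zero, one_pow, inv_one, mul_one] at h2
  obtain ⟨m, hm, hm0⟩ := ((h2.eventually (gt_mem_nhds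
    (show c * (DD K - Real.log R) < c * (DD K - Real.log R) + c * γ / 2 by
      have : 0 < c * γ / 2 := by positivity
      linarith))).and (eventually_gt_atTop 0)).exists
  have hm' : (0 : ℝ) < m := by exact_mod_cast hm0
  have hn' : (1 : ℝ) ≤ n := by exact_mod_cast hn
  have e : SS (hh K R) m / (m : ℝ) ^ (n + 1) * ((1 + n * ((m : ℝ))⁻¹) ^ (n + 1))⁻¹ =
      SS (hh K R) m / ((m : ℝ) + n) ^ (n + 1) := by
    have : 1 + n * ((m : ℝ))⁻¹ = (m + n) / m := by field_simp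
    rw [this, div_pow]
    field_simp
  rw [e] at hm
  have hN : (0 : ℝ) < NN n m := by exact_mod_cast NN_pos m
  set s : ℝ := c * γ / 2 * ((m : ℝ) + n) ^ (n + 1) / NN n m with hs
  have hs0 : 0 < s := by positivity
  choose P hP using fun a : II n m => exists_lt_of_ciInf_lt
    (show YY K (toF a) < YY K (toF a) * Real.exp s from
      lt_mul_of_one_lt_right (h.YY_pos _) (Real.one_lt_exp_iff.mpr hs0))
  obtain ⟨η, hη, hη'⟩ := h.cpt.exists_cthickening_subset_open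
    (t := ⋂ a : II n m, {x | ‖eval x (P a).1‖ < YY K (toF a) * Real.exp s})
    (isOpen_iInter_of_finite fun a => isOpen_lt (cont_eval _).norm continuous_const)
    (Set.subset_iInter fun a x hx => (h.toCK.le_nK _ hx).trans_lt (hP a))
  refine ⟨η, hη, fun K' hK' hs1 hs2 hb => ?_⟩
  have h' := h.mono hK' hs1
  have h3 := SS_lim_le hn (h'.hh_le hb) (h'.hh_add R) (h'.lim hn hR hb hc hc').2 m
  have h4 : SS (hh K' R) m ≤ SS (hh K R) m + NN n m * s := by
    have : ∀ a : II n m, hh K' R (toF a) ≤ hh K R (toF a) + s := by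
      intro a
      have h5 : YY K' (toF a) ≤ YY K (toF a) * Real.exp s :=
        (hK'.YY_le (P a)).trans (hK'.nK_le fun x hx =>
          (Set.mem_iInter.mp (hη' (hs2 hx)) a).le)
      have h6 := Real.log_le_log (h'.YY_pos _) h5
      rw [Real.log_mul (h.YY_pos _).ne' (Real.exp_pos _).ne', Real.log_exp] at h6
      unfold hh
      linarith
    have := Finset.sum_le_sum fun a (_ : a ∈ univ) => this a
    simpa [SS, Finset.sum_add_distrib, NN] using this
  have h5 : SS (hh K' R) m / ((m : ℝ) + n) ^ (n + 1) ≤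
      SS (hh K R) m / ((m : ℝ) + n) ^ (n + 1) + c * γ / 2 := by
    refine (div_le_div_of_nonneg_right h4 (by positivity)).trans (le_of_eq ?_)
    rw [hs]
    field_simp
  have h6 : c * DD K' ≤ c * (DD K + γ) := by nlinarith
  exact le_of_mul_le_mul_left h6 hc

lemma lim_le_of_freq (h : NP K) (hn : 1 ≤ n) {m c d : ℝ} (hm : 1 ≤ m) {u : ℕ → ℝ}
    (hu : Tendsto u atTop (𝓝 d))
    (hf : ∃ᶠ k in atTop, u k ≤ Real.exp (Real.log (VV K k) / ll n k + err n m k - c)) :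
    d ≤ Real.exp (DD K - c) := by
  have h2 := (Real.continuous_exp.tendsto _).comp
    (((h.tendsto hn).add (err_tend hn hm)).sub_const c)
  rw [add_zero] at h2
  by_contra hlt
  have h3 := h2.eventually_lt hu (not_le.mp hlt)
  obtain ⟨k, hk1, hk2⟩ := (hf.and_eventually h3).exists
  exact absurd hk1 (not_le.mpr hk2)

lemma NP.tendsto_rpow (h : NP K) (hn : 1 ≤ n) :
    Tendsto (fun k : ℕ => VV K k ^ ((1 : ℝ) / ll n k)) atTop (𝓝 (Real.exp (DD K))) := by
  refine ((Real.continuous_exp.tendsto _).comp (h.tendsto hn)).congr fun k => ?_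
  simp only [Function.comp]
  rw [Real.rpow_def_of_pos (h.VV_pos k), mul_one_div]

lemma sq_rpow {x l : ℝ} (hx : 0 ≤ x) : (x ^ 2) ^ ((1 : ℝ) / (2 * l)) = x ^ ((1 : ℝ) / l) := by
  rw [← Real.rpow_natCast, ← Real.rpow_mul hx]
  congr 1
  by_cases hl : l = 0
  · simp [hl]
  · push_cast
    field_simp

lemma NP.ball_gain (h : NP K) (hn : 1 ≤ n) {K' : Set (Fin n → ℂ)} (h' : CK K') (hs : K ⊆ K')
    {R η ε : ℝ} (hR : ∀ x ∈ K, ‖x‖ ≤ R) {y : Fin n → ℂ} (hy : ‖y‖ ≤ R) (hR1 : 1 ≤ R) (hη : 0 < η)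
    (hb : Metric.closedBall y η ⊆ K') (hε : 0 ≤ ε) {k : ℕ} (hk : 1 ≤ k)
    {p : MvPolynomial (Fin n) ℂ} (hp : p.totalDegree ≤ k) (hp1 : nK K p ≤ 1)
    (hpy : Real.exp (ε * k) ≤ ‖eval y p‖) {t : ℕ} (ht1 : 1 ≤ t)
    (ht : 2 * Real.log (2 * R / η + 1) ≤ ε * t) :
    DD K + ε / 4 / (2 * (t + 1) * n) ^ n ≤ DD K' := by
  have hp0 : p ≠ 0 := by
    rintro rfl
    simp at hpy
    exact absurd hpy (not_le.mpr (Real.exp_pos _))
  have hK' := h.mono h' hs
  have key := lim_le_of_freq hK' hn (m := 1) (c := ε / 4 / (2 * (t + 1) * n) ^ n) le_rfl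
    (h.tendsto_rpow hn) (frequently_atTop.mpr fun i => ?_)
  · have := Real.exp_le_exp.mp key
    linarith
  have hi : i + 1 ≤ (i + 1) * k := Nat.le_mul_of_pos_right _ hk
  refine ⟨t * (i + 1) * k + (i + 1) * k, by omega, ?_⟩
  rw [← sq_rpow (h.toCK.VV_nonneg _)]
  refine h'.gain_exp hn (p := p ^ (t * (i + 1))) (pow_ne_zero _ hp0)
    ((totalDegree_pow _ _).trans (Nat.mul_le_mul_left _ hp)) (a := ε / 4) (T := t + 1)
    (by positivity) le_rfl (by omega) (by push_cast; exact le_of_eq (by ring)) (hK'.VV_pos _)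
    (fun f => nK K f ^ 2) (fun f => sq_nonneg _) (fun f => by
      rw [one_mul]
      exact pow_le_pow_left₀ (h.toCK.nK_nonneg f) (h.toCK.nK_mono h' hs f) 2)
    (fun q hq => ?_) (sq_nonneg _) (fun g hg => h.toCK.VV_sq_le g hg)
  obtain ⟨w, hw, hw'⟩ := h.toCK.exists_nK q
  have h1 := prod_lb (p ^ (t * (i + 1))) q hq y w (r := η) (T := 2 * R / η)
    (M := nK K' (p ^ (t * (i + 1)) * q)) (by positivity) (by
      rw [div_mul_cancel₀ _ hη.ne']
      have := norm_sub_le w y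
      have := hR w hw
      linarith) (fun z hz => h'.le_nK _ (hb (by simpa [dist_eq_norm] using hz)))
  have h2 : nK K (p ^ (t * (i + 1)) * q) ≤ nK K q := h.toCK.nK_le fun x hx => by
    rw [map_mul, map_pow, norm_mul, norm_pow]
    have := pow_le_one₀ (n := t * (i + 1)) (norm_nonneg _) ((h.toCK.le_nK p hx).trans hp1)
    exact (mul_le_of_le_one_left (norm_nonneg _) this).trans (h.toCK.le_nK q hx)
  rw [map_pow, norm_pow, ← hw'] at h1
  set j := (i + 1) * k with hj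
  have h3 : Real.exp (ε * (t * j)) ≤ ‖eval y p‖ ^ (t * (i + 1)) := by
    refine le_trans (le_of_eq ?_) (pow_le_pow_left₀ (Real.exp_pos _).le hpy _)
    rw [← Real.exp_nat_mul, hj]
    congr 1
    push_cast
    ring
  have h4 : (2 * R / η + 1) ^ j = Real.exp (j * Real.log (2 * R / η + 1)) := by
    rw [← Real.log_pow, Real.exp_log (by positivity)]
  have h5 := h.toCK.nK_nonneg q
  have h6 := h'.nK_nonneg (p ^ (t * (i + 1)) * q)
  have h7 : nK K q ≤ Real.exp (-(ε / 4 * ((t * (i + 1) * k + j : ℕ) : ℝ))) *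
      nK K' (p ^ (t * (i + 1)) * q) := by
    have h8 := (mul_le_mul_of_nonneg_right h3 h5).trans h1
    rw [h4, ← le_div_iff₀' (Real.exp_pos _), mul_div_right_comm, ← Real.exp_sub] at h8
    refine h8.trans (mul_le_mul_of_nonneg_right (Real.exp_le_exp.mpr ?_) h6)
    have e : ((t * (i + 1) * k + j : ℕ) : ℝ) = (t + 1) * j := by
      rw [hj]; push_cast; ring
    rw [e]
    have ht' : (1 : ℝ) ≤ t := by exact_mod_cast ht1
    have hj0 : (0 : ℝ) ≤ j := Nat.cast_nonneg _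
    have h9 : j * Real.log (2 * R / η + 1) ≤ j * (ε * t / 2) := by gcongr; linarith
    have h10 : 0 ≤ ε * j * (t - 1) := by
      have : (0 : ℝ) ≤ t - 1 := by linarith
      positivity
    nlinarith
  calc nK K (p ^ (t * (i + 1)) * q) ^ 2 ≤ (Real.exp (-(ε / 4 * ((t * (i + 1) * k + j : ℕ) : ℝ))) *
      nK K' (p ^ (t * (i + 1)) * q)) ^ 2 :=
        pow_le_pow_left₀ (h.toCK.nK_nonneg _) (h2.trans h7) 2
    _ = _ := by
      rw [mul_pow, ← Real.exp_nat_mul, one_mul]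
      congr 2
      push_cast
      ring

end Pool.Agent.H184Z.RZ
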