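import Mathlib
import Pool.Agent.H184Z.RZ.B

set_option autoImplicit false

namespace Pool.Agent.H184Z.RZ

open Filter Topology Finset MvPolynomial MonomialOrder MeasureTheory Pool.Agent.H597Z.BM

variable {n : ℕ} {K : Set (Fin n → ℂ)}

lemma normalize {w : MvPolynomial (Fin n) ℂ} (hw : w ≠ 0) {R : ℝ} (hR : 1 ≤ R) :
    ∃ c : ℂ, ∃ z0 : Fin n → ℂ, ‖z0‖ ≤ R ∧ eval z0 (C c * w) = 1 ∧
      ∀ z : Fin n → ℂ, ‖z‖ ≤ R → ‖eval z (C c * w)‖ ≤ 1 := by
  have hB := ck_ball (0 : Fin n → ℂ) (r := R) (by linarith)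
  obtain ⟨z0, hz0, hz0'⟩ := hB.exists_nK w
  have h1 : ∀ z : Fin n → ℂ, ‖z‖ ≤ R → ‖eval z w‖ ≤ ‖eval z0 w‖ := fun z hz =>
    hz0' ▸ hB.le_nK w (by simpa using hz)
  have h0 : eval z0 w ≠ 0 := by
    intro h0
    apply hw
    ext α
    have := coeff_le n w _ (fun z hz => h1 z (by
      refine le_trans ?_ hR
      rw [pi_norm_le_iff_of_nonneg zero_le_one]
      exact fun i => (hz i).le)) α
    simpa [h0] using this
  refine ⟨(eval z0 w)⁻¹, z0, by simpa using hz0, by simp [h0], fun z hz => ?_⟩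
  rw [map_mul, eval_C, norm_mul, norm_inv, inv_mul_le_iff₀ (norm_pos_iff.mpr h0), mul_one]
  exact h1 z hz

lemma exists_vanish (S : Finset (Fin n → ℂ)) {d : ℕ} (hS : S.card < NN n d) :
    ∃ w : MvPolynomial (Fin n) ℂ, w ≠ 0 ∧ w.totalDegree ≤ d ∧ ∀ x ∈ S, eval x w = 0 := by
  let F : (II n d → ℂ) →ₗ[ℂ] (S → ℂ) :=
    Matrix.mulVecLin (Matrix.of fun (x : S) (b : II n d) => mon n d b x)
  have hF : LinearMap.ker F ≠ ⊥ := F.ker_ne_bot_of_finrank_lt (by simpa [NN] using hS)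
  obtain ⟨c, hc, hc0⟩ := Submodule.exists_mem_ne_zero_of_ne_bot hF
  refine ⟨poly c, fun h => hc0 ?_, deg_poly c, fun x hx => ?_⟩
  · funext a
    rw [← coeff_poly c a, h]
    simp
  · have := congrFun (LinearMap.mem_ker.mp hc) ⟨x, hx⟩
    rw [eval_poly, comb]
    simpa [F, Matrix.mulVec, dotProduct, mul_comm] using this

lemma schwarz {w : MvPolynomial (Fin n) ℂ} {x z : Fin n → ℂ} (hx : eval x w = 0)
    (hb : ∀ z, ‖z - x‖ < 1 → ‖eval z w‖ ≤ 1) (hz : ‖z - x‖ < 1) : ‖eval z w‖ ≤ ‖z - x‖ := by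
  have := Complex.dist_le_div_mul_dist_of_mapsTo_ball (f := fun z => eval z w) (c := x) (z := z)
    (R₁ := 1) (R₂ := 1)
    ((AnalyticOnNhd.eval_mvPolynomial w).differentiableOn.mono (Set.subset_univ _))
    (fun y hy => by
      simp only [hx, mem_closedBall_zero_iff]
      exact hb y (by simpa [dist_eq_norm] using hy)) (by simpa [dist_eq_norm] using hz)
  simpa [hx, dist_eq_norm] using this

def Irr (K : Set (Fin n → ℂ)) (ε : ℝ) (x : Fin n → ℂ) : Prop :=
  ∀ r : ℝ, 0 < r → ∃ y : Fin n → ℂ, ‖y - x‖ < r ∧ ∃ k : ℕ, 1 ≤ k ∧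
    ∃ p : MvPolynomial (Fin n) ℂ, p.totalDegree ≤ k ∧ nK K p ≤ 1 ∧
      Real.exp (ε * k) ≤ ‖eval y p‖

def KS (K : Set (Fin n → ℂ)) (ρ : ℝ) (S : Finset (Fin n → ℂ)) : Set (Fin n → ℂ) :=
  K ∪ ⋃ x ∈ S, Metric.closedBall x ρ

lemma CK.KS (h : CK K) (ρ : ℝ) (S : Finset (Fin n → ℂ)) : CK (KS K ρ S) :=
  h.union (S.isCompact_biUnion fun x _ => isCompact_closedBall x ρ)

lemma small_step (h : CK K) {R A M ε ρ : ℝ} (hR1 : 1 ≤ R) (hR : ∀ x ∈ K, ‖x‖ ≤ R)
    (hA : ∀ (k : ℕ) (p : MvPolynomial (Fin n) ℂ), p.totalDegree ≤ k → ∀ z : Fin n → ℂ,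
      ‖z‖ ≤ R + 1 → ‖eval z p‖ ≤ nK K p * Real.exp (k * A))
    {d u : ℕ} (hd : 1 ≤ d) (hu : 2 * M + ε ≤ ε * u) (hρ : ρ = Real.exp (-(A * u * d)))
    (hρ1 : ρ < 1)
    (hw : ∀ w : MvPolynomial (Fin n) ℂ, w.totalDegree ≤ d → ∀ z0 : Fin n → ℂ, ‖z0‖ ≤ R + 1 →
      eval z0 w = 1 → (∀ z : Fin n → ℂ, ‖z‖ ≤ R + 1 → ‖eval z w‖ ≤ 1) →
      ∃ x ∈ K, Irr K ε x ∧ Real.exp (-(M * d)) < ‖eval x w‖)
    (S : Finset (Fin n → ℂ)) (hS : ∀ x ∈ S, x ∈ K) (hc : S.card < NN n d) :
    ∃ x ∈ K, ∃ y : Fin n → ℂ, ‖y - x‖ < ρ / 2 ∧ ∃ k : ℕ, 1 ≤ k ∧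
      ∃ p : MvPolynomial (Fin n) ℂ, p.totalDegree ≤ k ∧ nK (KS K ρ S) p ≤ 1 ∧
        Real.exp (ε / 2 * k) ≤ ‖eval y p‖ := by
  have hρ0 : 0 < ρ := hρ ▸ Real.exp_pos _
  obtain ⟨w0, hw0, hw0d, hw0S⟩ := exists_vanish S hc
  obtain ⟨c, z0, hz0, hz1, hz2⟩ := normalize hw0 (R := R + 1) (by linarith)
  set w := C c * w0 with hwdef
  have hwd : w.totalDegree ≤ d := (totalDegree_mul _ _).trans (by simpa using hw0d)
  obtain ⟨x, hx, hI, hxw⟩ := hw w hwd z0 hz0 hz1 hz2
  obtain ⟨r, hr, hr'⟩ := Metric.isOpen_iff.mp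
    (isOpen_lt continuous_const (cont_eval w).norm : IsOpen {y | Real.exp (-(M * d)) < ‖eval y w‖})
    x hxw
  obtain ⟨y, hy, k, hk, p, hp, hp1, hpy⟩ := hI (min r (ρ / 2)) (by positivity)
  have hyw : Real.exp (-(M * d)) < ‖eval y w‖ :=
    hr' (by simpa [dist_eq_norm] using hy.trans_le (min_le_left _ _))
  refine ⟨x, hx, y, hy.trans_le (min_le_right _ _), u * d * k + k * d,
    (Nat.mul_pos hk hd).trans_le (Nat.le_add_left _ _),
    p ^ (u * d) * w ^ k, ?_, ?_, ?_⟩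
  · exact (totalDegree_mul _ _).trans (add_le_add
      ((totalDegree_pow _ _).trans (Nat.mul_le_mul_left _ hp))
      ((totalDegree_pow _ _).trans (Nat.mul_le_mul_left _ hwd)))
  · refine (h.KS ρ S).nK_le fun z hz => ?_
    rw [map_mul, map_pow, map_pow, norm_mul, norm_pow, norm_pow]
    rcases hz with hz | hz
    · have h1 := pow_le_one₀ (n := u * d) (norm_nonneg _) ((h.le_nK p hz).trans hp1)
      have h2 := pow_le_one₀ (n := k) (norm_nonneg _) (hz2 z (by linarith [hR z hz]))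
      exact mul_le_one₀ h1 (by positivity) h2
    · simp only [Set.mem_iUnion] at hz
      obtain ⟨x', hx', hz⟩ := hz
      have hz' : ‖z - x'‖ ≤ ρ := by simpa [dist_eq_norm] using hz
      have hb : ∀ z, ‖z - x'‖ < 1 → ‖z‖ ≤ R + 1 := fun z hz => by
        have := norm_add_le (z - x') x'
        have := hR x' (hS x' hx')
        simp only [sub_add_cancel] at *
        linarith
      have h1 : ‖eval z w‖ ≤ ρ := (schwarz (by simp [hwdef, hw0S x' hx'])
        (fun z hz => hz2 z (hb z hz)) (hz'.trans_lt hρ1)).trans hz'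
      have h2 : ‖eval z p‖ ≤ Real.exp (k * A) :=
        (hA k p hp z (hb z (hz'.trans_lt hρ1))).trans
          (mul_le_of_le_one_left (Real.exp_pos _).le hp1)
      calc _ ≤ Real.exp (k * A) ^ (u * d) * ρ ^ k := by gcongr
        _ = 1 := by
          rw [hρ, ← Real.exp_nat_mul, ← Real.exp_nat_mul, ← Real.exp_add, ← Real.exp_zero]
          congr 1
          push_cast
          ring
  · rw [map_mul, map_pow, map_pow, norm_mul, norm_pow, norm_pow]
    calc _ ≤ Real.exp (ε * k) ^ (u * d) * Real.exp (-(M * d)) ^ k := by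
          rw [← Real.exp_nat_mul, ← Real.exp_nat_mul, ← Real.exp_add]
          refine Real.exp_le_exp.mpr ?_
          push_cast
          have : (0 : ℝ) ≤ (k * d) * (ε * u - (2 * M + ε)) := by
            have : 0 ≤ ε * u - (2 * M + ε) := by linarith
            positivity
          nlinarith
      _ ≤ _ := by gcongr

theorem NP.small (h : NP K) (hn : 1 ≤ n) {R ε : ℝ} (hR1 : 1 ≤ R) (hR : ∀ x ∈ K, ‖x‖ ≤ R)
    (hε : 0 < ε) (M : ℝ) : ∃ d : ℕ, 1 ≤ d ∧ ∃ w : MvPolynomial (Fin n) ℂ, w.totalDegree ≤ d ∧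
      ∃ z0 : Fin n → ℂ, ‖z0‖ ≤ R + 1 ∧ eval z0 w = 1 ∧
        (∀ z : Fin n → ℂ, ‖z‖ ≤ R + 1 → ‖eval z w‖ ≤ 1) ∧
        ∀ x ∈ K, Irr K ε x → ‖eval x w‖ ≤ Real.exp (-(M * d)) := by
  by_contra hcon
  push Not at hcon
  obtain ⟨A, hA1, hA⟩ := h.ball (R + 1)
  obtain ⟨u, hu⟩ := exists_nat_ge (max ((2 * M + ε) / ε) 1)
  have hu1 : (1 : ℝ) ≤ u := (le_max_right _ _).trans hu
  have hu2 : 2 * M + ε ≤ ε * u := by
    have := (le_max_left _ _).trans hu
    rwa [div_le_iff₀' hε] at this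
  have hn' : (1 : ℝ) ≤ n := by exact_mod_cast hn
  have hl5 : 0 ≤ Real.log (5 * (R + 1)) := Real.log_nonneg (by linarith)
  obtain ⟨C2, hC2⟩ := exists_nat_ge (max (4 * (Real.log (5 * (R + 1)) + 2 * A * u * n) / ε) 1)
  have hC21 : (1 : ℝ) ≤ C2 := (le_max_right _ _).trans hC2
  have hC22 : 4 * (Real.log (5 * (R + 1)) + 2 * A * u * n) ≤ ε * C2 := by
    have := (le_max_left _ _).trans hC2
    rwa [div_le_iff₀' hε] at this
  set γ : ℝ := ε / 8 / (4 * C2 * n) ^ n with hγ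
  have hγ0 : 0 < γ := by positivity
  obtain ⟨η, hη, hη'⟩ := h.outer hn (R := R + 1) (by linarith) (γ := γ / 2) (by positivity)
  obtain ⟨L, hL⟩ := exists_nat_ge (max (-Real.log η) 1)
  have hL1 : (1 : ℝ) ≤ L := (le_max_right _ _).trans hL
  have hL1' : 1 ≤ L := by exact_mod_cast hL1
  set d := n * (L + 1) with hd
  have hd' : (d : ℝ) = n * (L + 1) := by rw [hd]; push_cast; ring
  have hd1 : 1 ≤ d := by rw [hd]; nlinarith
  set ρ := Real.exp (-(A * u * d)) with hρ
  have hAu : (L : ℝ) + 1 ≤ A * u * d := by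
    rw [hd']
    have : 1 ≤ A * u * n := one_le_mul_of_one_le_of_one_le (one_le_mul_of_one_le_of_one_le hA1 hu1) hn'
    nlinarith
  have hρ0 : 0 < ρ := Real.exp_pos _
  have hρ1 : ρ < 1 := Real.exp_lt_one_iff.mpr (by linarith)
  have hρη : ρ ≤ η := by
    rw [← Real.exp_log hη]
    refine Real.exp_le_exp.mpr ?_
    have := (le_max_left _ _).trans hL
    linarith
  have hN : L ^ n < NN n d := by
    have h1 := NN_ge hn d
    rw [hd', mul_div_cancel_left₀ _ (by positivity)] at h1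
    have h2 : (L : ℝ) ^ n < (L + 1) ^ n := pow_lt_pow_left₀ (by linarith) (by positivity) (by omega)
    exact_mod_cast h2.trans_le h1
  have hKS : ∀ S : Finset (Fin n → ℂ), (∀ x ∈ S, x ∈ K) → ∀ z ∈ KS K ρ S, ‖z‖ ≤ R + 1 := by
    intro S hS z hz
    rcases hz with hz | hz
    · linarith [hR z hz]
    · simp only [Set.mem_iUnion] at hz
      obtain ⟨x', hx', hz⟩ := hz
      have hz' : ‖z - x'‖ ≤ ρ := by simpa [dist_eq_norm] using hz
      have := norm_add_le (z - x') x'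
      have := hR x' (hS x' hx')
      simp only [sub_add_cancel] at *
      linarith
  set c : ℝ := ε / 2 / 4 / (2 * ((C2 * L : ℕ) + 1) * n) ^ n with hc
  have key : ∀ i ≤ L ^ n, ∃ S : Finset (Fin n → ℂ), (∀ x ∈ S, x ∈ K) ∧ S.card ≤ i ∧
      DD K + i * c ≤ DD (KS K ρ S) := by
    classical
    intro i
    induction i with
    | zero => exact fun _ => ⟨∅, by simp, by simp, by simp [KS]⟩
    | succ i ih =>
      intro hi
      obtain ⟨S, hS, hSc, hD⟩ := ih (by omega)
      obtain ⟨x, hx, y, hy, k, hk, p, hp, hp1, hpy⟩ := small_step h.toCK hR1 hR hA hd1 hu2 hρ hρ1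
        (hcon d hd1) S hS (by omega)
      refine ⟨insert x S, fun z hz => ?_, (card_insert_le _ _).trans (by omega), ?_⟩
      · rcases mem_insert.mp hz with rfl | hz
        · exact hx
        · exact hS z hz
      have h1 := (h.mono (h.toCK.KS ρ S) Set.subset_union_left).ball_gain hn
        (h.toCK.KS ρ (insert x S)) (Set.union_subset_union_right _
          (Set.biUnion_subset_biUnion_left (by simp))) (R := R + 1) (η := ρ / 2) (ε := ε / 2)
        (hKS S hS) (y := y) (by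
          have := norm_add_le (y - x) x
          have := hR x hx
          simp only [sub_add_cancel] at *
          linarith) (by linarith) (by positivity) (fun z hz => Or.inr (by
            simp only [Set.mem_iUnion]
            refine ⟨x, mem_insert_self _ _, ?_⟩
            have h2 := dist_triangle z y x
            rw [Metric.mem_closedBall] at hz ⊢
            rw [dist_eq_norm y x] at h2
            linarith)) (by positivity) hk hp hp1 hpy (t := C2 * L)
        (Nat.mul_pos (by exact_mod_cast hC21) hL1') (by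
          have h2 : Real.log (2 * (R + 1) / (ρ / 2) + 1) ≤ Real.log (5 * (R + 1)) + A * u * d := by
            have h3 : A * u * d = Real.log ρ⁻¹ := by rw [Real.log_inv, hρ, Real.log_exp, neg_neg]
            rw [h3, ← Real.log_mul (by positivity) (by positivity)]
            refine Real.log_le_log (by positivity) ?_
            have : 1 ≤ (R + 1) * ρ⁻¹ := one_le_mul_of_one_le_of_one_le (by linarith)
              (one_le_inv₀ hρ0 |>.mpr hρ1.le)
            have e : 2 * (R + 1) / (ρ / 2) = 4 * ((R + 1) * ρ⁻¹) := by field_simp; ring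
            rw [e]
            linarith
          rw [hd'] at h2
          push_cast
          have h4 : 0 ≤ A * u * n * (L - 1) := by
            have : (0 : ℝ) ≤ L - 1 := by linarith
            positivity
          have h5 : 0 ≤ Real.log (5 * (R + 1)) * (L - 1) := by
            have : (0 : ℝ) ≤ L - 1 := by linarith
            positivity
          have h6 := mul_le_mul_of_nonneg_right hC22 (show (0 : ℝ) ≤ L by positivity)
          nlinarith)
      push_cast at h1 hc ⊢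
      linarith
  obtain ⟨S, hS, _, hD⟩ := key _ le_rfl
  have h1 := hη' (KS K ρ S) (h.toCK.KS ρ S) Set.subset_union_left (by
    rintro z (hz | hz)
    · exact Metric.self_subset_cthickening _ hz
    · simp only [Set.mem_iUnion] at hz
      obtain ⟨x', hx', hz⟩ := hz
      exact Metric.closedBall_subset_cthickening (hS x' hx') η
        (Metric.closedBall_subset_closedBall hρη hz)) (hKS S hS)
  have h2 : γ ≤ (L ^ n : ℕ) * c := by
    rw [hγ, hc]
    push_cast
    rw [← mul_div_assoc, div_le_div_iff₀ (by positivity) (by positivity)]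
    have h3 : (2 * (C2 * L + 1) * n : ℝ) ^ n ≤ (L * (4 * C2 * n)) ^ n := by
      refine pow_le_pow_left₀ (by positivity) ?_ _
      have : (1 : ℝ) ≤ C2 * L := one_le_mul_of_one_le_of_one_le hC21 hL1
      nlinarith
    rw [mul_pow (L : ℝ)] at h3
    nlinarith
  linarith

end Pool.Agent.H184Z.RZ
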