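import Mathlib
import Pool.Agent.H184Z.RZ.A

set_option autoImplicit false

namespace Pool.Agent.H184Z.RZ

open Filter Topology Finset MvPolynomial MeasureTheory Pool.Agent.H597Z.BM

variable {n : ℕ}

lemma log_le_of {x M : ℝ} (hx : 0 ≤ x) (hM : 1 ≤ M) (h : x ≤ M) : Real.log x ≤ Real.log M := by
  rcases hx.eq_or_lt with rfl | hx
  · simpa using Real.log_nonneg hM
  · exact Real.log_le_log hx h

lemma remez1 (P : Polynomial ℂ) {T : Set ℝ} (hT : MeasurableSet T) {M0 M1 s : ℝ} (h0 : 1 ≤ M0)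
    (h01 : M0 ≤ M1) (hs : 0 ≤ s) (h1 : ∀ θ, ‖P.eval (circleMap 0 1 θ)‖ ≤ M1)
    (h2 : ∀ θ ∉ T, ‖P.eval (circleMap 0 1 θ)‖ ≤ M0)
    (hv : volume.restrict (Set.Ioc 0 (2 * Real.pi)) T ≤ ENNReal.ofReal (2 * Real.pi * s)) :
    ‖P.eval 0‖ ≤ Real.exp (Real.log M0 + s * (Real.log M1 - Real.log M0)) := by
  by_cases hP : P = 0
  · simp [hP, (Real.exp_pos _).le]
  have hpi := Real.two_pi_pos
  have hl : 0 ≤ Real.log M1 - Real.log M0 := sub_nonneg.mpr (Real.log_le_log (by linarith) h01)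
  refine (eval_le_mahler0 P).trans ?_
  rw [Polynomial.mahlerMeasure_def_of_ne_zero hP, Real.exp_le_exp, inv_mul_le_iff₀ hpi,
    intervalIntegral.integral_of_le hpi.le]
  have hi : Integrable (T.indicator fun _ => Real.log M1 - Real.log M0)
      (volume.restrict (Set.Ioc 0 (2 * Real.pi))) := (integrable_const _).indicator hT
  refine (integral_mono (g := fun θ => Real.log M0 +
      T.indicator (fun _ => Real.log M1 - Real.log M0) θ)
    P.intervalIntegrable_mahlerMeasure.1 ((integrable_const _).add hi) fun θ => ?_).trans ?_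
  · by_cases hθ : θ ∈ T
    · simpa [hθ] using log_le_of (norm_nonneg _) (h0.trans h01) (h1 θ)
    · simpa [hθ] using log_le_of (norm_nonneg _) h0 (h2 θ hθ)
  · rw [integral_add (integrable_const _) hi, integral_indicator_const _ hT, integral_const]
    have e : (volume.restrict (Set.Ioc 0 (2 * Real.pi))).real Set.univ = 2 * Real.pi := by
      simp [Measure.real, Real.pi_pos.le]
    have e2 : (volume.restrict (Set.Ioc 0 (2 * Real.pi))).real T ≤ 2 * Real.pi * s :=
      ENNReal.toReal_le_of_le_ofReal (by positivity) hv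
    rw [e, smul_eq_mul, smul_eq_mul]
    nlinarith

lemma mp_rot {ζ : ℂ} (hζ : ‖ζ‖ = 1) (x : Fin n → ℂ) :
    MeasurePreserving (fun v : Fin n → ℂ => ζ • v + x) volume volume := by
  have h1 : MeasurePreserving (fun v : ℂ => ζ * v) volume volume :=
    (rotation ⟨ζ, by simpa [Submonoid.unitSphere] using hζ⟩).measurePreserving
  exact (measurePreserving_add_right volume x).comp (measurePreserving_pi _ _ fun _ => h1)

lemma exists_dir {T : Set (Fin n → ℂ)} (hT : MeasurableSet T) (x : Fin n → ℂ) {r s : ℝ}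
    (hr : 0 < r) (hv : volume T ≤ ENNReal.ofReal s * volume (Metric.closedBall (0 : Fin n → ℂ) r)) :
    ∃ v : Fin n → ℂ, ‖v‖ ≤ r ∧ volume.restrict (Set.Ioc 0 (2 * Real.pi))
      {θ : ℝ | circleMap 0 1 θ • v + x ∈ T} ≤ ENNReal.ofReal (2 * Real.pi * s) := by
  have hc : Continuous fun q : (Fin n → ℂ) × ℝ => circleMap 0 1 q.2 • q.1 + x := by fun_prop
  have hm : Measurable (Function.uncurry fun (v : Fin n → ℂ) (θ : ℝ) =>
      T.indicator (1 : (Fin n → ℂ) → ENNReal) (circleMap 0 1 θ • v + x)) :=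
    (measurable_one.indicator hT).comp hc.measurable
  have h0 : volume (Metric.closedBall (0 : Fin n → ℂ) r) ≠ 0 :=
    (Metric.measure_closedBall_pos volume _ hr).ne'
  have h1 : volume (Metric.closedBall (0 : Fin n → ℂ) r) ≠ ⊤ := measure_closedBall_lt_top.ne
  obtain ⟨v, hv1, hv2⟩ := exists_le_setLAverage (f := fun v : Fin n → ℂ =>
    ∫⁻ θ in Set.Ioc 0 (2 * Real.pi), T.indicator 1 (circleMap 0 1 θ • v + x)) h0 h1
    hm.lintegral_prod_right.aemeasurable
  refine ⟨v, by simpa using hv1, ?_⟩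
  have e : volume.restrict (Set.Ioc 0 (2 * Real.pi)) {θ : ℝ | circleMap 0 1 θ • v + x ∈ T} =
      ∫⁻ θ in Set.Ioc 0 (2 * Real.pi), T.indicator 1 (circleMap 0 1 θ • v + x) := by
    rw [← lintegral_indicator_one (show MeasurableSet {θ : ℝ | circleMap 0 1 θ • v + x ∈ T} from
      (by fun_prop : Continuous fun θ : ℝ => circleMap 0 1 θ • v + x).measurable hT)]
    rfl
  rw [e]
  refine hv2.trans ?_
  rw [setLAverage_eq, lintegral_lintegral_swap hm.aemeasurable]
  refine ENNReal.div_le_of_le_mul ?_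
  calc _ ≤ ∫⁻ _ in Set.Ioc 0 (2 * Real.pi), volume T := by
        refine lintegral_mono fun θ => (setLIntegral_le_lintegral _ _).trans (le_of_eq ?_)
        rw [(mp_rot (by simp) x).lintegral_comp (measurable_one.indicator hT),
          lintegral_indicator_one hT]
    _ = volume T * ENNReal.ofReal (2 * Real.pi) := by simp
    _ ≤ _ := by
        rw [ENNReal.ofReal_mul Real.two_pi_pos.le, mul_assoc, mul_comm (volume T)]
        gcongr

lemma remez {S : Set (Fin n → ℂ)} (hS : MeasurableSet S) (x0 : Fin n → ℂ) {r s : ℝ}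
    (hr : 0 < r) (hs : 0 ≤ s) (hs1 : s ≤ 1 / 2)
    (hv : volume (Metric.closedBall x0 (2 * r) \ S) ≤
      ENNReal.ofReal s * volume (Metric.closedBall (0 : Fin n → ℂ) r))
    {k : ℕ} {p : MvPolynomial (Fin n) ℂ} (hp : p.totalDegree ≤ k) {M0 : ℝ} (h0 : 1 ≤ M0)
    (hM : ∀ z ∈ S, ‖eval z p‖ ≤ M0) {y : Fin n → ℂ} (hy : y ∈ Metric.closedBall x0 r) :
    ‖eval y p‖ ≤ M0 * Real.exp (4 * s * k) := by
  have hB := ck_ball x0 hr.le
  obtain ⟨x, hx, hx'⟩ := hB.exists_nK p
  refine (hB.le_nK p hy).trans ?_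
  set M := nK (Metric.closedBall x0 r) p with hMdef
  by_cases hle : M ≤ M0
  · exact hle.trans (le_mul_of_one_le_right (by linarith) (Real.one_le_exp (by positivity)))
  have hlt := not_le.mp hle
  obtain ⟨v, hv1, hv2⟩ := exists_dir (measurableSet_closedBall.diff hS) x hr hv
  have hin : ∀ θ, ‖circleMap 0 1 θ • v + x - x0‖ ≤ 2 * r := fun θ => by
    rw [add_sub_assoc]
    refine (norm_add_le _ _).trans ?_
    rw [norm_smul]
    have : ‖x - x0‖ ≤ r := by simpa [dist_eq_norm] using hx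
    simp only [norm_circleMap_zero, abs_one, one_mul]
    linarith
  have h3 : (1 : ℝ) ≤ (2 + 1) ^ k := one_le_pow₀ (by norm_num)
  have h1 := remez1 (line v x p) (T := {θ : ℝ | circleMap 0 1 θ • v + x ∈
      Metric.closedBall x0 (2 * r) \ S})
    ((by fun_prop : Continuous fun θ : ℝ => circleMap 0 1 θ • v + x).measurable
      (measurableSet_closedBall.diff hS)) (M1 := (2 + 1) ^ k * M) h0 (by nlinarith) hs
    (fun θ => by
      rw [eval_line]
      exact bw_ball p hp x0 _ two_pos (hin θ) fun z hz =>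
        hB.le_nK p (by simpa [dist_eq_norm] using hz))
    (fun θ hθ => by
      rw [eval_line]
      refine hM _ ?_
      by_contra hc
      exact hθ ⟨by simpa [dist_eq_norm] using hin θ, hc⟩) hv2
  rw [eval_line, zero_smul, zero_add, ← hx', ← Real.log_le_iff_le_exp (by linarith),
    Real.log_mul (by positivity) (by linarith), Real.log_pow] at h1
  have h4 : Real.log (2 + 1) ≤ 2 := by
    have := Real.log_le_sub_one_of_pos (x := 2 + 1) (by norm_num)
    linarith
  have h5 : Real.log M0 ≤ Real.log M := Real.log_le_log (by linarith) hlt.le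
  rw [← Real.exp_log (show 0 < M0 by linarith), ← Real.exp_add,
    ← Real.log_le_iff_le_exp (by linarith)]
  have h6 : s * (k * Real.log (2 + 1)) ≤ s * (k * 2) := by gcongr
  nlinarith

lemma hartogs (F : ℕ → Set (MvPolynomial (Fin n) ℂ)) (hF : ∀ k, ∀ p ∈ F k, p.totalDegree ≤ k)
    {E U : Set (Fin n → ℂ)} (hE : IsCompact E) (hU : IsOpen U) (hEU : E ⊆ U) {a : ℝ} (ha : 0 < a)
    (h : ∀ z ∈ U, ∃ m, ∀ k ≥ m, ∀ p ∈ F k, ‖eval z p‖ ≤ Real.exp (a * k)) :
    ∃ m, ∀ k ≥ m, ∀ p ∈ F k, ∀ x ∈ E, ‖eval x p‖ ≤ Real.exp (2 * a * k) := by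
  refine hE.induction_on (p := fun E => ∃ m, ∀ k ≥ m, ∀ p ∈ F k, ∀ x ∈ E,
    ‖eval x p‖ ≤ Real.exp (2 * a * k)) ⟨0, by simp⟩ ?_ ?_ ?_
  · rintro s t hst ⟨m, hm⟩
    exact ⟨m, fun k hk p hp x hx => hm k hk p hp x (hst hx)⟩
  · rintro s t ⟨m, hm⟩ ⟨m', hm'⟩
    refine ⟨max m m', fun k hk p hp x hx => ?_⟩
    rcases hx with hx | hx
    · exact hm k (le_of_max_le_left hk) p hp x hx
    · exact hm' k (le_of_max_le_right hk) p hp x hx
  intro x0 hx0
  obtain ⟨r, hr, hr'⟩ := Metric.isOpen_iff.mp hU x0 (hEU hx0)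
  let S : ℕ → Set (Fin n → ℂ) := fun m => {z | ∀ k ≥ m, ∀ p ∈ F k, ‖eval z p‖ ≤ Real.exp (a * k)}
  have hS : ∀ m, IsClosed (S m) := fun m => by
    simp only [S, Set.ofPred_forall]
    exact isClosed_iInter fun k => isClosed_iInter fun _ => isClosed_iInter fun p =>
      isClosed_iInter fun _ => isClosed_le (cont_eval p).norm continuous_const
  have h1 := tendsto_measure_iInter_atTop (μ := volume)
    (s := fun m => Metric.closedBall x0 (2 * (r / 4)) \ S m)
    (fun m => (measurableSet_closedBall.diff (hS m).measurableSet).nullMeasurableSet)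
    (fun m m' hm => Set.sdiff_subset_sdiff_right fun z hz k hk => hz k (hm.trans hk))
    ⟨0, ((measure_mono Set.sdiff_subset).trans_lt measure_closedBall_lt_top).ne⟩
  have h2 : ⋂ m, Metric.closedBall x0 (2 * (r / 4)) \ S m = ∅ := by
    refine Set.eq_empty_of_forall_notMem fun z hz => ?_
    rw [Set.mem_iInter] at hz
    obtain ⟨m, hm⟩ := h z (hr' (Metric.closedBall_subset_ball (by linarith) (hz 0).1))
    exact (hz m).2 hm
  rw [h2, measure_empty] at h1
  have hs : 0 < min (a / 4) (1 / 2) := by positivity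
  obtain ⟨m, hm⟩ := (h1.eventually (ge_mem_nhds (a := ENNReal.ofReal (min (a / 4) (1 / 2)) *
    volume (Metric.closedBall (0 : Fin n → ℂ) (r / 4))) (ENNReal.mul_pos
      (ENNReal.ofReal_pos.mpr hs).ne'
      (Metric.measure_closedBall_pos volume _ (by positivity)).ne'))).exists
  refine ⟨Metric.closedBall x0 (r / 4),
    mem_nhdsWithin_of_mem_nhds (Metric.closedBall_mem_nhds _ (by positivity)), m,
    fun k hk p hp x hx => ?_⟩
  refine (remez (hS m).measurableSet x0 (by positivity) hs.le (min_le_right _ _) hm (hF k p hp)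
    (Real.one_le_exp (by positivity)) (fun z hz => hz k hk p hp) hx).trans ?_
  rw [← Real.exp_add]
  refine Real.exp_le_exp.mpr ?_
  have := min_le_left (a / 4) (1 / 2)
  have : (0 : ℝ) ≤ k := Nat.cast_nonneg _
  nlinarith

end Pool.Agent.H184Z.RZ
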