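import Mathlib

set_option autoImplicit false

namespace Pool.Agent.H184Z.RZDefs

open Filter Topology MeasureTheory

variable {n : ℕ}

/-- Multi-indices of total degree `≤ k` (they index the monomials of degree `≤ k`). -/
abbrev Idx (n k : ℕ) := {α : Fin n → Fin (k + 1) // ∑ i, (α i : ℕ) ≤ k}

/-- The Vandermonde determinant `VDM_k`. -/
noncomputable def VDM (k : ℕ) (x : Idx n k → Fin n → ℂ) : ℂ :=
  (Matrix.of fun a b : Idx n k => ∏ i, x a i ^ (b.1 i : ℕ)).det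

/-- `l_k`, the sum of the degrees of the monomials of degree `≤ k`. -/
noncomputable def l (n k : ℕ) : ℝ := ∑ a : Idx n k, ∑ i, ((a.1 i : ℕ) : ℝ)

/-- `max |VDM_k|` over `K^{N_k}`. -/
noncomputable def maxVDM (K : Set (Fin n → ℂ)) (k : ℕ) : ℝ :=
  sSup {s : ℝ | ∃ x : Idx n k → Fin n → ℂ, (∀ a, x a ∈ K) ∧ s = ‖VDM k x‖}

/-- `Z_k = ∫ |VDM_k|² dμ^{N_k}`. -/
noncomputable def Z (μ : Measure (Fin n → ℂ)) (k : ℕ) : ℝ :=
  ∫ x, ‖VDM k x‖ ^ 2 ∂(Measure.pi fun _ : Idx n k => μ)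

/-- Siciak's extremal function `Φ_K = exp V_K`. -/
noncomputable def Phi (K : Set (Fin n → ℂ)) (z : Fin n → ℂ) : ENNReal :=
  ⨆ (k : ℕ) (_ : 1 ≤ k) (p : MvPolynomial (Fin n) ℂ) (_ : p.totalDegree ≤ k)
    (_ : ∀ x ∈ K, ‖MvPolynomial.eval x p‖ ≤ 1),
    ENNReal.ofReal (‖MvPolynomial.eval z p‖ ^ ((1 : ℝ) / k))

/-- Condition (R) with the bound `exp V_K^*` given as the function `B`. -/
def CondR (B : (Fin n → ℂ) → ENNReal) (μ : Measure (Fin n → ℂ)) : Prop :=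
  ∀ p : ℕ → MvPolynomial (Fin n) ℂ, (∀ j, p j ≠ 0) →
    Tendsto (fun j => (p j).totalDegree) atTop atTop → ∀ z : Fin n → ℂ,
      limsup (fun j => (ENNReal.ofReal ‖MvPolynomial.eval z (p j)‖ /
        eLpNorm (fun x => MvPolynomial.eval x (p j)) 2 μ) ^ ((1 : ℝ) / (p j).totalDegree)) atTop
        ≤ B z

end Pool.Agent.H184Z.RZDefs
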