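import Mathlib
import Pool.Agent.H184Z.RZ.B

set_option autoImplicit false

namespace Pool.Agent.H184Z.RZ

open Filter Topology Finset MvPolynomial MonomialOrder MeasureTheory Pool.Agent.H597Z.BM

variable {n : ℕ} {K E : Set (Fin n → ℂ)}

noncomputable def sh (c : Fin n → ℂ) {k : ℕ} (b : II n k) : MonD (toF b) :=
  ⟨∏ i, (X i - C (c i)) ^ (b.1 i : ℕ),
    MonomialOrder.Monic.prod fun i _ => (monic_X_sub_C degLex i (c i)).pow, by
      rw [degree_prod fun i _ => (monic_X_sub_C degLex i (c i)).pow.ne_zero]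
      ext i
      simp [degree_pow, degree_X_sub_C, Finsupp.finsetSum_apply, Finsupp.single_apply]⟩

lemma eval_sh (c : Fin n → ℂ) {k : ℕ} (b : II n k) (x : Fin n → ℂ) :
    eval x (sh c b).1 = mon n k b (x - c) := by simp [sh, mon]

lemma vdm_shift (c : Fin n → ℂ) {k : ℕ} (z : II n k → Fin n → ℂ) :
    vdm (mon n k) (fun a => z a - c) = vdm (mon n k) z := by
  rw [← vdm_monD (sh c) z]
  simp only [eval_sh]
  rfl

noncomputable def shift (c : Fin n → ℂ) (k : ℕ) (p : MvPolynomial (Fin n) ℂ) :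
    MvPolynomial (Fin n) ℂ := ∑ b : II n k, C (coeff (toF b) p) * (sh c b).1

lemma shift_deg (c : Fin n → ℂ) (k : ℕ) (p : MvPolynomial (Fin n) ℂ) :
    (shift c k p).totalDegree ≤ k :=
  totalDegree_finsetSum_le fun b _ => (totalDegree_mul _ _).trans (by
    simpa [(sh c b).deg] using toF_le b)

lemma eval_shift (c : Fin n → ℂ) {k : ℕ} {p : MvPolynomial (Fin n) ℂ} (hp : p.totalDegree ≤ k)
    (x : Fin n → ℂ) : eval x (shift c k p) = eval (x - c) p := by
  conv_rhs => rw [← poly_coeff hp, eval_poly]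
  simp [shift, eval_sh, comb]

lemma eval_mono {k : ℕ} (b : II n k) (x : Fin n → ℂ) :
    eval x (monomial (toF b) (1 : ℂ)) = mon n k b x := by
  rw [eval_monomial, one_mul, Finsupp.prod_fintype _ _ (by simp)]
  rfl

lemma prod_reindex (k j : ℕ) (F : (Fin n →₀ ℕ) → ℝ) :
    ∏ b ∈ univ.filter (fun b : II n (k + j) => (toF b).degree ≤ k), F (toF b) =
      ∏ a : II n k, F (toF a) := by
  refine Finset.prod_bij' (fun b hb => ofF (toF b) (mem_filter.mp hb).2)
    (fun a _ => ofF (toF a) ((toF_le a).trans (Nat.le_add_right _ _))) (by simp)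
    (fun a _ => by simpa using toF_le a) (fun b _ => toF_inj (by simp))
    (fun b _ => toF_inj (by simp)) (by simp)

lemma prod_pow_deg (k : ℕ) {R : ℝ} (hR : 0 < R) :
    ∏ b : II n k, R ^ (toF b).degree = Real.exp (ll n k * Real.log R) := by
  rw [ll_eq, Finset.sum_mul, Real.exp_sum]
  refine Finset.prod_congr rfl fun b _ => ?_
  rw [← Real.log_pow, Real.exp_log (by positivity)]

lemma vdm_low {k j : ℕ} {W : MvPolynomial (Fin n) ℂ} (hW : W.totalDegree ≤ j)
    (hW0 : coeff 0 W = 1) (P : ∀ b : II n (k + j), MonD (toF b)) (z : II n (k + j) → Fin n → ℂ) :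
    vdm (fun b x => if (toF b).degree ≤ k then eval x W * eval x (P b).1 else mon n (k + j) b x) z =
      vdm (mon n (k + j)) z := by
  classical
  let G : II n (k + j) → MvPolynomial (Fin n) ℂ := fun b =>
    if (toF b).degree ≤ k then W * monomial (toF b) 1 else monomial (toF b) 1
  have hG : ∀ b, (G b).totalDegree ≤ k + j := fun b => by
    simp only [G]
    split_ifs with hb
    · refine (totalDegree_mul _ _).trans ?_
      have := (totalDegree_monomial_le (toF b) (1 : ℂ)).trans hb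
      omega
    · exact (totalDegree_monomial_le _ _).trans (toF_le b)
  let lo : LinearOrder (II n (k + j)) :=
    LinearOrder.lift' (fun a => OrderDual.toDual (degLex.toSyn (toF a)))
      (OrderDual.toDual.injective.comp (degLex.toSyn.injective.comp toF_inj))
  have h1 : vdm (fun b x => eval x (G b)) z = vdm (mon n (k + j)) z := by
    rw [← vdm_comb lo (mon n (k + j)) (fun b b' => coeff (toF b') (G b)) fun b => ⟨?_, ?_⟩]
    · congr 1
      funext b x
      rw [← eval_poly, poly_coeff (hG b)]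
    · simp only [G]
      split_ifs
      · simp [coeff_mul_monomial', hW0]
      · simp
    · intro b' hb'
      have h2 : degLex.toSyn (toF b') < degLex.toSyn (toF b) := hb'
      have h3 : ¬toF b ≤ toF b' := fun h => not_le.mpr h2 (degLex.toSyn_monotone h)
      simp only [G]
      split_ifs
      · simp [coeff_mul_monomial', h3]
      · rw [coeff_monomial, if_neg fun h => h3 h.le]
  let P' : ∀ b : II n (k + j), MonD (toF b) := fun b =>
    if (toF b).degree ≤ k then P b
    else ⟨monomial (toF b) 1, monic_monomial_one, by simp [degree_monomial]⟩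
  rw [← h1, ← vdm_comb (dl n (k + j)) (fun b x => eval x (G b)) _ fun b => mon_of_monD b (P' b)]
  congr 1
  funext b x
  by_cases hb : (toF b).degree ≤ k
  · simp only [P', hb, if_true]
    conv_lhs => rw [← poly_coeff ((P b).deg.le.trans (toF_le b)), eval_poly]
    rw [comb, comb, Finset.mul_sum]
    refine Finset.sum_congr rfl fun b' _ => ?_
    by_cases hb' : (toF b').degree ≤ k
    · simp only [G, hb', if_true, map_mul, eval_mono]
      ring
    · rw [coeff_eq_zero_of_totalDegree_lt]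
      · simp
      · exact lt_of_le_of_lt ((P b).deg.le.trans hb) (not_le.mp hb')
  · simp [P', hb, comb, coeff_monomial, toF_inj.eq_iff, G, eval_mono]

lemma core0 (hE : CK E) {k j : ℕ} {W : MvPolynomial (Fin n) ℂ} (hW : W.totalDegree ≤ j)
    (hW0 : coeff 0 W = 1) {R : ℝ} (hR : ∀ x ∈ K, ‖x‖ ≤ R) (hR1 : 0 < R)
    (hp : ∀ p : MvPolynomial (Fin n) ℂ, p.totalDegree ≤ k → ∀ x ∈ K,
      ‖eval x W * eval x p‖ ≤ nK E p) (z : II n (k + j) → Fin n → ℂ) (hz : ∀ a, z a ∈ K) :
    ‖vdm (mon n (k + j)) z‖ ≤ (NN n (k + j)).factorial *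
      (VV E k * Real.exp ((ll n (k + j) - ll n k) * Real.log R)) := by
  have h1 := le_prod_inf (T := fun b : II n (k + j) => MonD (toF b))
    (fun b P => if (toF b).degree ≤ k then nK E P.1 else R ^ (toF b).degree) (fun _ => 1)
    (‖vdm (mon n (k + j)) z‖ ^ 2) (((NN n (k + j)).factorial : ℝ) ^ 2) (by positivity)
    (fun _ => zero_le_one) (fun b P => by
      split_ifs
      · exact hE.nK_nonneg _
      · positivity) (fun P => by
      simp only [one_mul]
      rw [Finset.prod_pow, ← mul_pow, ← vdm_low hW hW0 P z]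
      refine pow_le_pow_left₀ (norm_nonneg _) (norm_vdm_le' _ _ _ fun b a => ?_) 2
      split_ifs with hb
      · exact hp _ ((P b).deg.le.trans hb) _ (hz a)
      · exact norm_mon_le b (hR _ (hz a)))
  have h2 : ∀ b : II n (k + j), (⨅ P : MonD (toF b),
      if (toF b).degree ≤ k then nK E P.1 else R ^ (toF b).degree) =
      if (toF b).degree ≤ k then YY E (toF b) else R ^ (toF b).degree := by
    intro b
    split_ifs
    · rfl
    · exact ciInf_const
  simp only [one_mul, h2] at h1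
  rw [Finset.prod_pow, ← mul_pow, Finset.prod_ite, prod_reindex k j (YY E)] at h1
  have h3 := Finset.prod_filter_mul_prod_filter_not univ
    (fun b : II n (k + j) => (toF b).degree ≤ k) fun b => R ^ (toF b).degree
  rw [prod_reindex k j fun β => R ^ β.degree, prod_pow_deg _ hR1, prod_pow_deg _ hR1,
    mul_comm, ← eq_div_iff (Real.exp_pos _).ne', ← Real.exp_sub, ← sub_mul] at h3
  rw [h3] at h1
  have h4 : 0 ≤ ∏ a : II n k, YY E (toF a) := Finset.prod_nonneg fun a _ => hE.YY_nonneg _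
  refine ((pow_le_pow_iff_left₀ (norm_nonneg _) (by positivity) two_ne_zero).mp h1).trans ?_
  gcongr
  exact hE.prod_le_VV k

lemma core (hK : CK K) (hE : CK E) {k j : ℕ} {w : MvPolynomial (Fin n) ℂ}
    (hw : w.totalDegree ≤ j) {z0 : Fin n → ℂ}
    (hw0 : eval z0 w = 1) {R : ℝ} (hR : ∀ x ∈ K, ‖x - z0‖ ≤ R) (hR1 : 0 < R)
    (hp : ∀ p : MvPolynomial (Fin n) ℂ, p.totalDegree ≤ k → ∀ x ∈ K,
      ‖eval x w * eval x p‖ ≤ nK E p) :
    VV K (k + j) ≤ (NN n (k + j)).factorial *
      (VV E k * Real.exp ((ll n (k + j) - ll n k) * Real.log R)) := by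
  have hE' : CK ((fun x => x - z0) '' E) := ⟨hE.cpt.image (by fun_prop), hE.ne.image _⟩
  refine hK.VV_le _ fun z hz => ?_
  rw [← vdm_shift z0]
  refine (core0 (K := (fun x => x - z0) '' K) hE' (W := shift (-z0) j w) (shift_deg _ _ _) ?_
    (R := R) (by rintro _ ⟨x, hx, rfl⟩; exact hR x hx) hR1 ?_ _
    (fun a => ⟨z a, hz a, rfl⟩)).trans ?_
  · rw [← constantCoeff_eq, ← eval_zero, eval_shift _ hw]
    simpa using hw0
  · rintro p hp' _ ⟨x, hx, rfl⟩
    rw [eval_shift _ hw, ← eval_shift z0 hp']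
    simp only [sub_neg_eq_add, sub_add_cancel]
    refine (hp _ (shift_deg _ _ _) x hx).trans (hE.nK_le fun y hy => ?_)
    rw [eval_shift z0 hp']
    exact hE'.le_nK p ⟨y, hy, rfl⟩
  · gcongr
    refine hE'.VV_le k fun y hy => ?_
    rw [← vdm_shift (-z0)]
    refine hE.le_VV k _ fun a => ?_
    obtain ⟨x, hx, hx'⟩ := hy a
    simpa [← hx'] using hx

lemma sup_le_int' {ι X : Type*} [Fintype ι] [DecidableEq ι] [TopologicalSpace X]
    [SecondCountableTopology X] [MeasurableSpace X] [BorelSpace X]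
    {K E : Set X} (ν : Measure X) [IsFiniteMeasure ν]
    (hK : IsCompact K) (hν : ν Kᶜ = 0) {f : ι → X → ℂ} (hf : ∀ b, Continuous (f b))
    (M : ℝ) (hM : 0 ≤ M)
    (h : ∀ c : ι → ℂ, ∀ x ∈ E, ‖comb f c x‖ ^ 2 ≤ M * ∫ y, ‖comb f c y‖ ^ 2 ∂ν)
    (x : ι → X) (hx : ∀ a, x a ∈ E) :
    ‖vdm f x‖ ^ 2 ≤ M ^ Fintype.card ι * ∫ z, ‖vdm f z‖ ^ 2 ∂(Measure.pi fun _ : ι => ν) := by
  let F : (ι → X) → ENNReal := fun z => ENNReal.ofReal (‖vdm f z‖ ^ 2)
  have hF : Measurable F := ((continuous_vdm hf).norm.pow 2).measurable.ennreal_ofReal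
  have key : ∀ s : Finset ι, ∀ x : ι → X, (∀ a ∈ s, x a ∈ E) →
      F x ≤ ENNReal.ofReal M ^ s.card * (∫⋯∫⁻_s, F ∂fun _ => ν) x := by
    intro s
    induction s using Finset.induction_on with
    | empty => intro x _; simp
    | insert i s hi ih =>
      intro x hx
      obtain ⟨c, hc⟩ := vdm_update f x i
      have hcc : Continuous fun y => ‖comb f c y‖ ^ 2 := by unfold comb; fun_prop
      have h1 : F x ≤ ENNReal.ofReal M * ∫⁻ y, F (Function.update x i y) ∂ν := by
        have h2 := h c (x i) (hx i (mem_insert_self _ _))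
        rw [← hc, Function.update_eq_self] at h2
        simp only [F, hc]
        rw [← ofReal_integral_eq_lintegral_ofReal (integrable_of_compact ν hK hν hcc)
          (ae_of_all _ fun y => by positivity), ← ENNReal.ofReal_mul hM]
        exact ENNReal.ofReal_le_ofReal h2
      rw [lmarginal_insert _ hF hi, card_insert_of_notMem hi, pow_succ', mul_assoc]
      refine h1.trans (mul_le_mul_right ?_ _)
      rw [← lintegral_const_mul' _ _ (ENNReal.pow_ne_top ENNReal.ofReal_ne_top)]
      refine lintegral_mono fun y => ih _ fun a ha => ?_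
      have : a ≠ i := fun h => hi (h ▸ ha)
      simpa [Function.update_of_ne this] using hx a (mem_insert_of_mem ha)
  have h1 := key univ x fun a _ => hx a
  have hcc : Continuous fun z : ι → X => ‖vdm f z‖ ^ 2 := (continuous_vdm hf).norm.pow 2
  rw [← lintegral_eq_lmarginal_univ, ← ofReal_integral_eq_lintegral_ofReal
    (integrable_pi ν hK hν hcc) (ae_of_all _ fun y => by positivity),
    ← ENNReal.ofReal_pow hM, ← ENNReal.ofReal_mul (by positivity)] at h1
  exact (ENNReal.ofReal_le_ofReal_iff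
    (mul_nonneg (by positivity) (integral_nonneg fun _ => by positivity))).mp h1

lemma CK.sq_le_ZZ (h : CK E) (ν : Measure (Fin n → ℂ)) [IsFiniteMeasure ν] (hK : IsCompact K)
    (hν : ν Kᶜ = 0) (k : ℕ) {M : ℝ} (hM : 0 ≤ M)
    (hb : ∀ p : MvPolynomial (Fin n) ℂ, p.totalDegree ≤ k → ∀ x ∈ E,
      ‖eval x p‖ ^ 2 ≤ M * ∫ y, ‖eval y p‖ ^ 2 ∂ν) : VV E k ^ 2 ≤ M ^ NN n k * ZZ ν k := by
  have h0 := ZZ_nonneg ν k
  rw [← Real.le_sqrt (h.VV_nonneg k) (by positivity)]
  refine h.VV_le k fun z hz => ?_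
  rw [Real.le_sqrt (norm_nonneg _) (by positivity)]
  refine sup_le_int' ν hK hν (cont_mon k) M hM (fun c x hx => ?_) z hz
  simpa only [eval_poly] using hb (poly c) (deg_poly c) x hx

end Pool.Agent.H184Z.RZ
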