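import Mathlib
import Pool.Agent.H184Z.RZ.C
import Pool.Agent.H184Z.RZ.D
import Pool.Agent.H184Z.RZ.E

set_option autoImplicit false

namespace Pool.Agent.H184Z.RZ

open Filter Topology Finset MvPolynomial MonomialOrder MeasureTheory Pool.Agent.H597Z.BM

variable {n : ℕ} {K : Set (Fin n → ℂ)} (ν : Measure (Fin n → ℂ))

noncomputable def I2 (p : MvPolynomial (Fin n) ℂ) : ℝ := ∫ y, ‖eval y p‖ ^ 2 ∂ν

lemma I2_nonneg (p : MvPolynomial (Fin n) ℂ) : 0 ≤ I2 ν p := integral_nonneg fun _ => by positivity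

lemma scale {k : ℕ} {x : Fin n → ℂ} {B : ℝ} (hB : 0 < B)
    (h : ∀ p : MvPolynomial (Fin n) ℂ, p.totalDegree ≤ k → I2 ν p ≤ 1 → ‖eval x p‖ ≤ B)
    (p : MvPolynomial (Fin n) ℂ) (hp : p.totalDegree ≤ k) : ‖eval x p‖ ^ 2 ≤ B ^ 2 * I2 ν p := by
  rw [← div_le_iff₀' (by positivity)]
  refine le_of_forall_gt_imp_ge_of_dense fun t ht => ?_
  have ht0 : 0 < t := (I2_nonneg ν p).trans_lt ht
  have e : ∀ y, ‖eval y (C (((√t)⁻¹ : ℝ) : ℂ) * p)‖ ^ 2 = t⁻¹ * ‖eval y p‖ ^ 2 := by
    intro y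
    rw [map_mul, eval_C, norm_mul, Complex.norm_real, Real.norm_of_nonneg (by positivity), mul_pow,
      inv_pow, Real.sq_sqrt ht0.le]
  have h1 := h (C (((√t)⁻¹ : ℝ) : ℂ) * p) ((totalDegree_mul _ _).trans (by simpa using hp)) (by
    simp only [I2, e]
    rw [integral_const_mul, inv_mul_le_iff₀ ht0, mul_one]
    exact ht.le)
  have h2 := pow_le_pow_left₀ (norm_nonneg _) h1 2
  rw [e, inv_mul_le_iff₀ ht0] at h2
  rw [div_le_iff₀ (by positivity)]
  exact h2

lemma isOpen_not_irr (K : Set (Fin n → ℂ)) (ε : ℝ) : IsOpen {z | ¬Irr K ε z} := by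
  refine Metric.isOpen_iff.mpr fun z hz => ?_
  simp only [Irr, Set.mem_ofPred_eq, not_forall] at hz
  obtain ⟨r, hr, hz⟩ := hz
  refine ⟨r / 2, by positivity, fun z' hz' hI => hz ?_⟩
  obtain ⟨y, hy, hy'⟩ := hI (r / 2) (by positivity)
  refine ⟨y, ?_, hy'⟩
  have := dist_triangle y z' z
  rw [Metric.mem_ball] at hz'
  rw [dist_eq_norm y z, dist_eq_norm y z'] at this
  linarith

def HR (K : Set (Fin n → ℂ)) (ν : Measure (Fin n → ℂ)) : Prop :=
  ∀ ε : ℝ, 0 < ε → ∀ z, ¬Irr K ε z → ∃ m, ∀ k ≥ m, ∀ p : MvPolynomial (Fin n) ℂ,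
    p.totalDegree ≤ k → I2 ν p ≤ 1 → ‖eval z p‖ ≤ Real.exp (2 * ε * k)

variable [IsFiniteMeasure ν]

theorem NP.lower (h : NP K) (hn : 1 ≤ n) (hν : ν Kᶜ = 0) (hR : HR K ν) {b : ℝ} (hb : b < DD K) :
    ∀ᶠ k : ℕ in atTop, Real.exp b ≤ ZZ ν k ^ ((1 : ℝ) / (2 * ll n k)) := by
  obtain ⟨R, hR1, hR'⟩ := h.toCK.exists_bound
  obtain ⟨A, hA1, hA⟩ := h.ball (R + 2)
  set Λ := Real.log (2 * (R + 1) + 1) with hΛ
  have hΛ0 : 0 ≤ Λ := Real.log_nonneg (by linarith)
  have h1 : Tendsto (fun τ : ℝ => (1 + τ) ^ (n + 1) * (DD K - 0 - Λ) + Λ - 8 * τ) (𝓝[>] 0)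
      (𝓝 ((1 + 0) ^ (n + 1) * (DD K - 0 - Λ) + Λ - 8 * 0)) :=
    tendsto_nhdsWithin_of_tendsto_nhds (Continuous.tendsto (by fun_prop) 0)
  obtain ⟨τ, hτb, hτ⟩ := ((h1.eventually (lt_mem_nhds (show b < _ by simpa using hb))).and
    self_mem_nhdsWithin).exists
  replace hτ : 0 < τ := hτ
  have hq : 0 ≤ (Λ + A) / τ := by positivity
  obtain ⟨d, hd, w, hw, z0, hz0, hw0, hw1, hw2⟩ := h.small hn hR1 hR' hτ (A + (Λ + A) / τ + 2)
  have hd' : (1 : ℝ) ≤ d := by exact_mod_cast hd
  set θ := Real.exp (-((A + (Λ + A) / τ + 1) * d)) with hθ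
  set E := K ∩ {x | θ ≤ ‖eval x w‖} with hEdef
  have hE : CK E := by
    refine ⟨h.cpt.inter_right (isClosed_le continuous_const (cont_eval w).norm), ?_⟩
    obtain ⟨x, hx, hx'⟩ := h.toCK.exists_nK w
    refine ⟨x, hx, ?_⟩
    have := hA d w hw z0 (by linarith)
    rw [hw0, norm_one, hx', ← div_le_iff₀ (Real.exp_pos _), one_div, ← Real.exp_neg] at this
    refine le_trans (Real.exp_le_exp.mpr ?_) this
    nlinarith
  obtain ⟨m, hm⟩ := hartogs (fun k => {p | p.totalDegree ≤ k ∧ I2 ν p ≤ 1}) (fun k p hp => hp.1)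
    hE.cpt (isOpen_not_irr K τ) (fun x hx hI => by
      have h2 := Real.exp_le_exp.mp (le_trans hx.2 (hw2 x hx.1 hI))
      nlinarith) (a := 2 * τ) (by positivity)
    (fun z hz => by
      obtain ⟨m, hm⟩ := hR τ hτ z hz
      exact ⟨m, fun k hk p hp => hm k hk p hp.1 hp.2⟩)
  let a : ℕ → ℕ := fun k => ⌊τ / d * k⌋₊ + 1
  have ha : ∀ k : ℕ, τ * k < (a k * d : ℕ) := fun k => by
    have := Nat.lt_floor_add_one (τ / d * k)
    rw [div_mul_eq_mul_div, div_lt_iff₀ (by positivity), ← div_mul_eq_mul_div] at this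
    simpa [a] using this
  have hs : Tendsto (fun k => k + a k * d) atTop atTop :=
    tendsto_atTop_mono (fun k => Nat.le_add_right _ _) tendsto_id
  have hs2 : Tendsto (fun k : ℕ => ((k + a k * d : ℕ) : ℝ) / k) atTop (𝓝 (1 + τ)) := by
    have h2 := ((((tendsto_nat_floor_mul_div_atTop (a := τ / d) (by positivity)).comp
      tendsto_natCast_atTop_atTop).add tendsto_inv_atTop_nhds_zero_nat).mul_const (d : ℝ)).const_add 1
    rw [add_zero, div_mul_cancel₀ _ (by positivity)] at h2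
    refine h2.congr' ?_
    filter_upwards [eventually_gt_atTop 0] with k hk
    have hk' : (0 : ℝ) < k := by exact_mod_cast hk
    simp only [a, Function.comp]
    push_cast
    field_simp
  obtain ⟨c, hc, hc'⟩ := ll_lim hn
  have hs3 : Tendsto (fun k : ℕ => ll n (k + a k * d) / ll n k) atTop (𝓝 ((1 + τ) ^ (n + 1))) := by
    have h2 := ((hc'.comp hs).mul (hs2.pow (n + 1))).div hc' hc.ne'
    rw [mul_div_cancel_left₀ _ hc.ne'] at h2
    refine h2.congr' ?_
    filter_upwards [eventually_gt_atTop 0] with k hk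
    have hk' : (0 : ℝ) < k := by exact_mod_cast hk
    have hk2 : (0 : ℝ) < (k + a k * d : ℕ) := by exact_mod_cast (by omega)
    have := ll_pos hn hk
    simp only [Function.comp, Pi.div_apply, div_pow]
    field_simp
  have h3 := ((hs3.mul (((((h.tendsto hn).comp hs).sub
    ((err_tend hn le_rfl).comp hs)).sub_const Λ))).add_const Λ).sub_const (8 * τ)
  filter_upwards [h3.eventually (lt_mem_nhds hτb), eventually_ge_atTop m, eventually_gt_atTop 0]
    with k hk hkm hk0
  have hk' : (0 : ℝ) < k := by exact_mod_cast hk0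
  have hZ := hE.sq_le_ZZ ν h.cpt hν k (M := Real.exp (2 * (2 * τ) * k) ^ 2) (by positivity)
    (fun p hp x hx => scale ν (Real.exp_pos _) (fun q hq hq' => hm k hkm q ⟨hq, hq'⟩ x hx) p hp)
  have hV := core h.toCK hE (k := k) (j := a k * d) (w := w ^ a k)
    ((totalDegree_pow _ _).trans (Nat.mul_le_mul_left _ hw)) (z0 := z0) (by simp [hw0])
    (R := 2 * (R + 1) + 1) (fun x hx => by
      have := norm_sub_le x z0
      have := hR' x hx
      linarith) (by positivity) (fun p hp => by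
      have hB := ck_ball (0 : Fin n → ℂ) (r := R + 1) (by linarith)
      obtain ⟨y, hy, hy'⟩ := hB.exists_nK p
      set P := nK (Metric.closedBall (0 : Fin n → ℂ) (R + 1)) p with hP
      have h4 : ∀ x ∈ K, ‖eval x (w ^ a k) * eval x p‖ ≤ max (nK E p) (θ ^ a k * P) := by
        intro x hx
        rw [norm_mul, map_pow, norm_pow]
        by_cases hxE : θ ≤ ‖eval x w‖
        · refine le_max_of_le_left ((mul_le_of_le_one_left (norm_nonneg _) (pow_le_one₀
            (norm_nonneg _) (hw1 x (by linarith [hR' x hx])))).trans (hE.le_nK p ⟨hx, hxE⟩))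
        · refine le_max_of_le_right (mul_le_mul (pow_le_pow_left₀ (norm_nonneg _)
            (not_le.mp hxE).le _) (hB.le_nK p (by simpa using (hR' x hx).trans (by linarith)))
            (norm_nonneg _) (by positivity))
      by_cases h5 : θ ^ a k * P ≤ nK E p
      · simpa only [max_eq_left h5] using h4
      exfalso
      rw [max_eq_right (not_le.mp h5).le] at h4
      have hP0 : 0 < P := (pos_iff_pos_of_mul_pos (hE.nK_nonneg p |>.trans_lt (not_le.mp h5))).mp
        (by positivity)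
      have h6 := prod_lb (w ^ a k) p hp z0 y (r := 1) (T := 2 * (R + 1))
        (M := θ ^ a k * P * Real.exp ((a k * d + k : ℕ) * A)) (by positivity) (by
          have := norm_sub_le y z0
          have : ‖y‖ ≤ R + 1 := by simpa using hy
          linarith) (fun z hz => by
          refine (hA (a k * d + k) _ ((totalDegree_mul _ _).trans (add_le_add
            ((totalDegree_pow _ _).trans (Nat.mul_le_mul_left _ hw)) hp)) z (by
              have := norm_add_le (z - z0) z0
              simp only [sub_add_cancel] at this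
              linarith)).trans ?_
          gcongr
          exact h.toCK.nK_le fun x hx => by rw [map_mul]; exact h4 x hx)
      have e : (2 * (R + 1) + 1) ^ k = Real.exp (k * Λ) := by
        rw [hΛ, ← Real.log_pow, Real.exp_log (by positivity)]
      rw [map_pow, hw0, one_pow, norm_one, ← hy', e, hθ, ← Real.exp_nat_mul,
        mul_right_comm _ P, ← mul_assoc, ← Real.exp_add, ← Real.exp_add,
        mul_le_mul_iff_left₀ hP0, Real.one_le_exp_iff] at h6
      have h7 := ha k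
      push_cast at h6 h7
      have h8 : (Λ + A) * k ≤ (Λ + A) / τ * (a k * d) := by
        calc (Λ + A) * k = (Λ + A) / τ * (τ * k) := by field_simp
          _ ≤ _ := by gcongr
      have h9 : 0 < τ * k := by positivity
      nlinarith)
  set s := k + a k * d with hsdef
  have hN1 : (1 : ℝ) ≤ NN n s := by exact_mod_cast NN_pos s
  have hl := ll_pos hn hk0
  have hl' := ll_pos hn (k := s) (by omega)
  have hVs := h.VV_pos s
  have h10 : VV K s ^ 2 ≤ Real.exp (2 * (NN n s * Real.log (NN n s)) +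
      2 * ((ll n s - ll n k) * Λ) + 16 * τ * ll n k) * ZZ ν k := by
    have h11 : ((NN n s).factorial : ℝ) ≤ Real.exp (NN n s * Real.log (NN n s)) := by
      rw [← Real.log_pow, Real.exp_log (by positivity)]
      exact_mod_cast Nat.factorial_le_pow _
    have h12 : (Real.exp (2 * (2 * τ) * k) ^ 2) ^ NN n k ≤ Real.exp (16 * τ * ll n k) := by
      rw [← pow_mul, ← Real.exp_nat_mul]
      refine Real.exp_le_exp.mpr ?_
      have := le_ll hn k
      push_cast
      nlinarith
    have h13 := hZ.trans (mul_le_mul_of_nonneg_right h12 (ZZ_nonneg ν k))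
    calc VV K s ^ 2 ≤ (Real.exp (NN n s * Real.log (NN n s)) *
          (VV E k * Real.exp ((ll n s - ll n k) * Λ))) ^ 2 := by
          refine pow_le_pow_left₀ hVs.le (hV.trans ?_) 2
          have := hE.VV_nonneg k
          gcongr
      _ = (Real.exp (NN n s * Real.log (NN n s)) * Real.exp ((ll n s - ll n k) * Λ)) ^ 2 *
          VV E k ^ 2 := by ring
      _ ≤ (Real.exp (NN n s * Real.log (NN n s)) * Real.exp ((ll n s - ll n k) * Λ)) ^ 2 *
          (Real.exp (16 * τ * ll n k) * ZZ ν k) := by gcongr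
      _ = _ := by
          rw [Real.exp_add, Real.exp_add, two_mul (_ * Real.log _), two_mul (_ * Λ), Real.exp_add,
            Real.exp_add]
          ring
  have hZ0 : 0 < ZZ ν k := (pos_iff_pos_of_mul_pos ((pow_pos hVs 2).trans_le h10)).mp (by positivity)
  have h14 := Real.log_le_log (pow_pos hVs 2) h10
  rw [Real.log_mul (Real.exp_pos _).ne' hZ0.ne', Real.log_exp, Real.log_pow] at h14
  rw [Real.rpow_def_of_pos hZ0, Real.exp_le_exp, mul_one_div]
  refine hk.le.trans ?_
  simp only [Function.comp, err, one_mul, ← hsdef]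
  rw [le_div_iff₀ (by positivity)]
  have e : (ll n s / ll n k * (Real.log (VV K s) / ll n s - NN n s * Real.log (NN n s) / ll n s - Λ)
      + Λ - 8 * τ) * (2 * ll n k) = 2 * Real.log (VV K s) - 2 * (NN n s * Real.log (NN n s)) -
      2 * ((ll n s - ll n k) * Λ) - 16 * τ * ll n k := by
    field_simp
    ring
  rw [e]
  push_cast at h14
  linarith

lemma CK.upper (h : CK K) (hn : 1 ≤ n) (hν : ν Kᶜ = 0) {d : ℝ}
    (hd : Tendsto (fun k : ℕ => VV K k ^ ((1 : ℝ) / ll n k)) atTop (𝓝 d)) :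
    ∃ u : ℕ → ℝ, Tendsto u atTop (𝓝 d) ∧
      ∀ᶠ k : ℕ in atTop, ZZ ν k ^ ((1 : ℝ) / (2 * ll n k)) ≤ u k := by
  set m := max (ν.real Set.univ) 1 with hm
  have hm1 : (1 : ℝ) ≤ m := le_max_right _ _
  have h1 := ((Real.continuous_exp.tendsto _).comp
    (tendsto_const_div_atTop_nhds_zero_nat (Real.log m))).mul hd
  rw [Real.exp_zero, one_mul] at h1
  refine ⟨_, h1, ?_⟩
  filter_upwards [eventually_gt_atTop 0] with k hk
  have hl := ll_pos hn hk
  have hk' : (0 : ℝ) < k := by exact_mod_cast hk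
  have h2 : ZZ ν k ≤ m ^ NN n k * VV K k ^ 2 := by
    refine (int_le_sup ν h.cpt hν (cont_mon k) _ (h.le_VV k)).trans ?_
    gcongr
    exact pow_le_pow_left₀ measureReal_nonneg (le_max_left _ _) _
  refine (Real.rpow_le_rpow (ZZ_nonneg ν k) h2 (by positivity)).trans ?_
  rw [Real.mul_rpow (by positivity) (by positivity), sq_rpow (h.VV_nonneg k)]
  refine mul_le_mul_of_nonneg_right ?_ (Real.rpow_nonneg (h.VV_nonneg k) _)
  rw [Real.rpow_def_of_pos (by positivity), Real.log_pow, Function.comp, Real.exp_le_exp]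
  have h3 := NN_div_ll hn hk
  have h4 := Real.log_nonneg hm1
  calc NN n k * Real.log m * (1 / (2 * ll n k)) = NN n k / ll n k * (Real.log m / 2) := by
        field_simp
    _ ≤ 2 / k * (Real.log m / 2) := by gcongr
    _ = _ := by field_simp

theorem NP.Z_of_HR (h : NP K) (hn : 1 ≤ n) (hν : ν Kᶜ = 0) (hR : HR K ν) :
    Tendsto (fun k : ℕ => ZZ ν k ^ ((1 : ℝ) / (2 * ll n k))) atTop (𝓝 (Real.exp (DD K))) := by
  obtain ⟨u, hu, hu'⟩ := h.toCK.upper ν hn hν (h.tendsto_rpow hn)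
  refine tendsto_order.2 ⟨fun b hb => ?_, fun b hb => ?_⟩
  · obtain ⟨c, hc1, hc2⟩ := exists_between (max_lt hb (Real.exp_pos (DD K)))
    have hc0 : 0 < c := (le_max_right _ _).trans_lt hc1
    filter_upwards [h.lower ν hn hν hR (b := Real.log c) ((Real.log_lt_iff_lt_exp hc0).mpr hc2)]
      with k hk
    rw [Real.exp_log hc0] at hk
    exact ((le_max_left _ _).trans_lt hc1).trans_le hk
  · filter_upwards [hu', hu.eventually (gt_mem_nhds hb)] with k h1 h2 using h1.trans_lt h2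

omit [IsFiniteMeasure ν] in
theorem CK.polar (h : CK K) (hn : 1 ≤ n) (hN : ¬NP K) :
    Tendsto (fun k : ℕ => VV K k ^ ((1 : ℝ) / ll n k)) atTop (𝓝 0) := by
  obtain ⟨R, hR1, hR⟩ := h.exists_bound
  have hB := ck_ball (0 : Fin n → ℂ) (r := R + 1) (by linarith)
  have hB' : NP (Metric.closedBall (0 : Fin n → ℂ) (R + 1)) := ⟨hB, 0, le_rfl, fun k p _ z hz => by
    simpa using hB.le_nK p (x := z) (by simpa using hz.trans (by linarith))⟩
  have hs : K ⊆ Metric.closedBall 0 (R + 1) := fun x hx => by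
    simpa using (hR x hx).trans (by linarith)
  set B := Metric.closedBall (0 : Fin n → ℂ) (R + 1) with hBdef
  refine tendsto_order.2 ⟨fun b hb => Eventually.of_forall fun k =>
    hb.trans_le (Real.rpow_nonneg (h.VV_nonneg k) _), fun b hb => ?_⟩
  have hn' : (1 : ℝ) ≤ n := by exact_mod_cast hn
  set a := max (DD B + 1 - Real.log b) 0 * (2 * (2 : ℝ) * n) ^ n with ha
  have ha0 : 0 ≤ a := by positivity
  have hΛ : 0 ≤ Real.log (R + 1 + 1) := Real.log_nonneg (by linarith)
  have : ∃ (k : ℕ) (p : MvPolynomial (Fin n) ℂ), p.totalDegree ≤ k ∧ ∃ z : Fin n → ℂ, ‖z‖ ≤ 1 ∧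
      nK K p * Real.exp (k * (4 * (a + Real.log (R + 1 + 1)))) < ‖eval z p‖ := by
    by_contra hc
    push Not at hc
    exact hN ⟨h, _, by positivity, hc⟩
  obtain ⟨k, p, hp, z, hz, hpz⟩ := this
  have hp0 : p ≠ 0 := by
    rintro rfl
    have := h.nK_nonneg 0
    simp only [map_zero, norm_zero] at hpz
    exact absurd hpz (not_lt.mpr (by positivity))
  have hk : 0 < k := by
    refine Nat.pos_of_ne_zero ?_
    rintro rfl
    obtain ⟨x, hx⟩ := h.ne
    have := h.le_nK p hx
    rw [totalDegree_eq_zero_iff_eq_C.mp (Nat.le_zero.mp hp)] at this hpz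
    simp at this hpz
    linarith
  have h1 := (hB'.tendsto hn).add (err_tend hn le_rfl)
  filter_upwards [h1.eventually (gt_mem_nhds (show DD B + 0 < DD B + 1 by linarith)),
    eventually_ge_atTop (2 * k)] with s hs1 hs2
  obtain ⟨i, hi1, hi2, hi3⟩ : ∃ i, 1 ≤ i ∧ i * (2 * k) ≤ s ∧ s < i * (2 * k) + 2 * k :=
    ⟨s / (2 * k), Nat.div_pos hs2 (by omega), Nat.div_mul_le_self _ _,
      Nat.lt_div_mul_add (by omega)⟩
  have hi4 : s ≤ 4 * (i * k) := by nlinarith
  obtain ⟨j, rfl⟩ : ∃ j, s = i * k + j := ⟨s - i * k, by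
    have : i * k ≤ s := by nlinarith
    omega⟩
  have hj : i * k ≤ j := by nlinarith
  rw [← sq_rpow (h.VV_nonneg _)]
  refine (hB.gain_exp hn (p := p ^ i) (pow_ne_zero _ hp0)
    ((totalDegree_pow _ _).trans (Nat.mul_le_mul_left _ hp)) (a := a) (T := 2) ha0 le_rfl
    (by omega) (by exact_mod_cast (by omega)) (hB'.VV_pos _)
    (fun f => nK K f ^ 2) (fun f => sq_nonneg _) (fun f => by
      rw [one_mul]
      exact pow_le_pow_left₀ (h.nK_nonneg f) (h.nK_mono hB hs f) 2)
    (fun q hq => ?_) (sq_nonneg _) (fun g hg => h.VV_sq_le g hg)).trans_lt ?_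
  · obtain ⟨w, hw, hw'⟩ := h.exists_nK q
    have h2 := prod_lb (p ^ i) q hq z w (r := 1) (T := R + 1) (M := nK B (p ^ i * q))
      (by positivity) (by
        have := norm_sub_le w z
        have := hR w hw
        linarith) (fun y hy => hB.le_nK _ (by
          have := norm_add_le (y - z) z
          simp only [sub_add_cancel] at this
          simpa [hBdef] using this.trans (by linarith)))
    have e : (R + 1 + 1) ^ j = Real.exp (j * Real.log (R + 1 + 1)) := by
      rw [← Real.log_pow, Real.exp_log (by positivity)]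
    rw [map_pow, norm_pow, ← hw', e] at h2
    have h3 : nK K p ≤ Real.exp (-(k * (4 * (a + Real.log (R + 1 + 1))))) * ‖eval z p‖ := by
      rw [Real.exp_neg, le_inv_mul_iff₀' (Real.exp_pos _)]
      exact hpz.le
    have h4 : nK K (p ^ i * q) ≤ Real.exp (-(a * (i * k + j : ℕ))) * nK B (p ^ i * q) := by
      have h5 := h.nK_nonneg q
      have h6 := hB.nK_nonneg (p ^ i * q)
      calc nK K (p ^ i * q)
          ≤ (Real.exp (-(k * (4 * (a + Real.log (R + 1 + 1))))) * ‖eval z p‖) ^ i * nK K q :=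
            h.nK_le fun x hx => by
              rw [map_mul, map_pow, norm_mul, norm_pow]
              exact mul_le_mul (pow_le_pow_left₀ (norm_nonneg _) ((h.le_nK p hx).trans h3) _)
                (h.le_nK q hx) (norm_nonneg _) (by positivity)
        _ = Real.exp (-(k * (4 * (a + Real.log (R + 1 + 1))))) ^ i * (‖eval z p‖ ^ i * nK K q) := by
            ring
        _ ≤ Real.exp (-(k * (4 * (a + Real.log (R + 1 + 1))))) ^ i *
            (Real.exp (j * Real.log (R + 1 + 1)) * nK B (p ^ i * q)) := by gcongr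
        _ ≤ _ := by
            rw [← mul_assoc, ← Real.exp_nat_mul, ← Real.exp_add]
            gcongr
            have h7 : ((i * k + j : ℕ) : ℝ) ≤ 4 * (i * k) := by exact_mod_cast hi4
            have h8 : (0 : ℝ) ≤ i * k := by positivity
            have h9 := mul_le_mul_of_nonneg_left h7 (add_nonneg ha0 hΛ)
            push_cast at h7 h9 ⊢
            nlinarith
    refine (pow_le_pow_left₀ (h.nK_nonneg _) h4 2).trans (le_of_eq ?_)
    rw [mul_pow, ← Real.exp_nat_mul, one_mul]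
    congr 2
    push_cast
    ring
  · rw [← Real.exp_log hb, Real.exp_lt_exp, ha, mul_div_cancel_right₀ _ (by positivity)]
    have := le_max_left (DD B + 1 - Real.log b) 0
    linarith

theorem NP.not_Z (h : NP K) (hn : 1 ≤ n) (hν : ν Kᶜ = 0) {z : Fin n → ℂ} {r v ε : ℝ} (hr : 0 < r)
    (hε : 0 < ε) (hv : ∀ y, ‖y - z‖ ≤ r → ∀ (k : ℕ) (p : MvPolynomial (Fin n) ℂ),
      p.totalDegree ≤ k → ‖eval y p‖ ≤ nK K p * Real.exp (k * v))
    (hf : ∀ m : ℕ, ∃ k ≥ m, ∃ p : MvPolynomial (Fin n) ℂ, p ≠ 0 ∧ p.totalDegree ≤ k ∧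
      I2 ν p * Real.exp (k * (v + ε)) ^ 2 ≤ ‖eval z p‖ ^ 2) :
    ¬Tendsto (fun k : ℕ => ZZ ν k ^ ((1 : ℝ) / (2 * ll n k))) atTop (𝓝 (Real.exp (DD K))) := by
  intro hZ
  obtain ⟨R, hR1, hR⟩ := h.toCK.exists_bound
  set Λ := Real.log ((R + ‖z‖) / r + 1) with hΛ
  obtain ⟨t, ht⟩ := exists_nat_ge (max (2 * (Λ + v) / ε) 1)
  have ht1 : (1 : ℝ) ≤ t := (le_max_right _ _).trans ht
  have ht1' : 1 ≤ t := by exact_mod_cast ht1
  have ht2 : Λ + v ≤ ε * t / 2 := by
    have := (le_max_left _ _).trans ht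
    rw [div_le_iff₀ hε] at this
    linarith
  have hn' : (1 : ℝ) ≤ n := by exact_mod_cast hn
  have hm1 : (1 : ℝ) ≤ max (ν.real Set.univ) 1 := le_max_right _ _
  have key := lim_le_of_freq h hn (c := ε / 4 / (2 * (4 * t) * n) ^ n) hm1 hZ
    (frequently_atTop.mpr fun k0 => ?_)
  · have h1 := Real.exp_le_exp.mp key
    have : 0 < ε / 4 / (2 * (4 * t) * n) ^ n := by positivity
    linarith
  obtain ⟨k, hk, p, hp0, hp, hI⟩ := hf (max k0 t)
  have hkt : t ≤ k := (le_max_right _ _).trans hk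
  set j := k / t with hj
  have hj1 : (j : ℝ) * t ≤ k := by exact_mod_cast Nat.div_mul_le_self k t
  have hj2 : j ≤ k := Nat.div_le_self k t
  have hj2' : (j : ℝ) ≤ k := by exact_mod_cast hj2
  have hj3 : k + j ≤ 4 * t * j := by
    have h1 : 1 ≤ j := Nat.div_pos hkt ht1'
    have h2 := Nat.lt_div_mul_add (a := k) (b := t) ht1'
    rw [← hj] at h2
    nlinarith
  refine ⟨k + j, ((le_max_left _ _).trans hk).trans (Nat.le_add_right _ _), ?_⟩
  refine h.toCK.gain_exp hn hp0 hp (a := ε / 4) (T := 4 * t) (by positivity) hm1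
    ((ht1'.trans hkt).trans (Nat.le_add_right _ _))
    (by exact_mod_cast hj3) (h.VV_pos _) (I2 ν) (I2_nonneg ν) (fun f => ?_) (fun q hq => ?_)
    (ZZ_nonneg ν _) (fun g hg => ZZ_le ν h.cpt hν g hg)
  · have := h.toCK.int_le ν hν 1 f
    simp only [one_mul, map_one, norm_one, one_pow, integral_const, smul_eq_mul, mul_one] at this
    refine this.trans ?_
    rw [mul_comm]
    gcongr
    exact le_max_left _ _
  obtain ⟨w, hw, hw'⟩ := h.toCK.exists_nK q
  have h2 := prod_lb p q hq z w (r := r) (T := (R + ‖z‖) / r)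
    (M := nK K (p * q) * Real.exp ((k + j : ℕ) * v)) (by positivity) (by
      rw [div_mul_cancel₀ _ hr.ne']
      have := norm_sub_le w z
      have := hR w hw
      linarith) (fun y hy => hv y hy _ _ ((totalDegree_mul _ _).trans (add_le_add hp hq)))
  have e : ((R + ‖z‖) / r + 1) ^ j = Real.exp (j * Λ) := by
    rw [hΛ, ← Real.log_pow, Real.exp_log (by positivity)]
  rw [← hw', e] at h2
  have h3 := pow_le_pow_left₀ (mul_nonneg (norm_nonneg _) (h.toCK.nK_nonneg q)) h2 2
  rw [← le_div_iff₀ (by positivity)] at hI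
  calc I2 ν (p * q) ≤ nK K q ^ 2 * I2 ν p := h.toCK.int_le ν hν p q
    _ ≤ nK K q ^ 2 * (‖eval z p‖ ^ 2 / Real.exp (k * (v + ε)) ^ 2) := by gcongr
    _ = (‖eval z p‖ * nK K q) ^ 2 / Real.exp (k * (v + ε)) ^ 2 := by ring
    _ ≤ (Real.exp (j * Λ) * (nK K (p * q) * Real.exp ((k + j : ℕ) * v))) ^ 2 /
        Real.exp (k * (v + ε)) ^ 2 := by gcongr
    _ = 1 * (Real.exp (j * Λ) * Real.exp ((k + j : ℕ) * v) / Real.exp (k * (v + ε))) ^ 2 *
        nK K (p * q) ^ 2 := by ring
    _ ≤ _ := by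
      rw [← Real.exp_add, ← Real.exp_sub, ← Real.exp_nat_mul]
      gcongr
      have h4 : j * (Λ + v) ≤ j * (ε * t / 2) := by gcongr
      push_cast
      nlinarith

end Pool.Agent.H184Z.RZ
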