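import Mathlib
import Pool.Agent.H184Z.RZ.F
import Pool.Agent.H184Z.RZ.Defs

set_option autoImplicit false

namespace Pool.Agent.H184Z.RZ

open Filter Topology Finset MvPolynomial MonomialOrder MeasureTheory Pool.Agent.H597Z.BM
  Pool.Agent.H184Z.RZDefs

variable {n : ℕ} {K : Set (Fin n → ℂ)}

lemma le_Phi {k : ℕ} (hk : 1 ≤ k) {p : MvPolynomial (Fin n) ℂ} (hp : p.totalDegree ≤ k)
    (hK : ∀ x ∈ K, ‖eval x p‖ ≤ 1) (z : Fin n → ℂ) :
    ENNReal.ofReal (‖eval z p‖ ^ ((1 : ℝ) / k)) ≤ Phi K z :=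
  le_iSup₂_of_le k hk (le_iSup₂_of_le p hp (le_iSup_of_le hK le_rfl))

lemma le_of_Phi {k : ℕ} (hk : 1 ≤ k) {p : MvPolynomial (Fin n) ℂ} (hp : p.totalDegree ≤ k)
    (hK : ∀ x ∈ K, ‖eval x p‖ ≤ 1) {z : Fin n → ℂ} {v : ℝ}
    (h : Phi K z ≤ ENNReal.ofReal (Real.exp v)) : ‖eval z p‖ ≤ Real.exp (k * v) := by
  have h1 := (ENNReal.ofReal_le_ofReal_iff (Real.exp_pos _).le).mp ((le_Phi hk hp hK z).trans h)
  rw [one_div, Real.rpow_inv_le_iff_of_pos (norm_nonneg _) (Real.exp_pos _).le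
    (by exact_mod_cast hk), ← Real.exp_mul, mul_comm] at h1
  exact h1

lemma CK.bw (h : CK K) {z : Fin n → ℂ} {v : ℝ} (hz : Phi K z ≤ ENNReal.ofReal (Real.exp v))
    (k : ℕ) (p : MvPolynomial (Fin n) ℂ) (hp : p.totalDegree ≤ k) :
    ‖eval z p‖ ≤ nK K p * Real.exp (k * v) := by
  rcases Nat.eq_zero_or_pos k with rfl | hk
  · obtain ⟨x, hx⟩ := h.ne
    have := h.le_nK p hx
    rw [totalDegree_eq_zero_iff_eq_C.mp (Nat.le_zero.mp hp)] at this ⊢
    simpa using this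
  rw [← div_le_iff₀ (Real.exp_pos _)]
  refine le_of_forall_gt_imp_ge_of_dense fun η hη => ?_
  have hη0 : 0 < η := (h.nK_nonneg p).trans_lt hη
  rw [div_le_iff₀ (Real.exp_pos _)]
  have e : ∀ x, ‖eval x (C ((η⁻¹ : ℝ) : ℂ) * p)‖ = ‖eval x p‖ / η := by
    intro x
    rw [map_mul, eval_C, norm_mul, Complex.norm_real, Real.norm_of_nonneg (by positivity)]
    ring
  have := le_of_Phi hk (p := C ((η⁻¹ : ℝ) : ℂ) * p)
    ((totalDegree_mul _ _).trans (by simpa using hp)) (fun x hx => by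
      rw [e, div_le_one hη0]; exact (h.le_nK p hx).trans hη.le) hz
  rwa [e, div_le_iff₀' hη0] at this

lemma CK.star_le (h : CK K) {ε : ℝ} {z : Fin n → ℂ} (hz : ¬Irr K ε z) :
    limsup (Phi K) (𝓝 z) ≤ ENNReal.ofReal (Real.exp ε) := by
  simp only [Irr, not_forall] at hz
  obtain ⟨r, hr, hz⟩ := hz
  refine limsup_le_of_le (by isBoundedDefault) ?_
  filter_upwards [Metric.ball_mem_nhds z hr] with y hy
  refine iSup₂_le fun k hk => iSup₂_le fun p hp => iSup_le fun hK => ENNReal.ofReal_le_ofReal ?_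
  rw [one_div, Real.rpow_inv_le_iff_of_pos (norm_nonneg _) (Real.exp_pos _).le
    (by exact_mod_cast hk), ← Real.exp_mul]
  by_contra hc
  exact hz ⟨y, by simpa [dist_eq_norm] using hy, k, hk, p, hp, h.nK_le hK, (not_le.mp hc).le⟩

variable (ν : Measure (Fin n → ℂ)) [IsFiniteMeasure ν]

lemma eLp_eq (hK : IsCompact K) (hν : ν Kᶜ = 0) (p : MvPolynomial (Fin n) ℂ) :
    eLpNorm (fun x => eval x p) 2 ν = ENNReal.ofReal √(I2 ν p) := by
  have h1 : MemLp (fun x => eval x p) 2 ν :=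
    (memLp_two_iff_integrable_sq_norm (cont_eval p).aestronglyMeasurable).mpr
      (integrable_of_compact ν hK hν ((cont_eval p).norm.pow 2))
  rw [h1.eLpNorm_eq_integral_rpow_norm two_ne_zero ENNReal.ofNat_ne_top, Real.sqrt_eq_rpow]
  simp [I2]

lemma lt_ratio {x y c : ℝ} {d : ℕ} (hd : 1 ≤ d) (_hy : 0 ≤ y)
    (h : ENNReal.ofReal (Real.exp c) < (ENNReal.ofReal x / ENNReal.ofReal y) ^ ((1 : ℝ) / d)) :
    y * Real.exp (d * c) ≤ x ∧ 0 < x := by
  have hd' : (0 : ℝ) < d := by exact_mod_cast hd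
  rw [one_div, ENNReal.lt_rpow_inv_iff hd', ENNReal.ofReal_rpow_of_pos (Real.exp_pos _),
    ← Real.exp_mul] at h
  have hx : 0 < x := by
    by_contra hx
    rw [ENNReal.ofReal_of_nonpos (not_lt.mp hx), ENNReal.zero_div] at h
    exact not_lt_zero h
  refine ⟨?_, hx⟩
  have := ENNReal.mul_lt_of_lt_div h
  rw [← ENNReal.ofReal_mul (Real.exp_pos _).le, ENNReal.ofReal_lt_ofReal_iff hx] at this
  rw [mul_comm, mul_comm (d : ℝ)]
  exact this.le

lemma le_ratio {x y c : ℝ} {d : ℕ} (hd : 1 ≤ d) (_hy : 0 ≤ y) (hx : 0 < x)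
    (h : y * Real.exp (d * c) ≤ x) :
    ENNReal.ofReal (Real.exp c) ≤ (ENNReal.ofReal x / ENNReal.ofReal y) ^ ((1 : ℝ) / d) := by
  have hd' : (0 : ℝ) < d := by exact_mod_cast hd
  rw [one_div, ENNReal.le_rpow_inv_iff hd', ENNReal.ofReal_rpow_of_pos (Real.exp_pos _),
    ← Real.exp_mul, ENNReal.le_div_iff_mul_le (Or.inr (ENNReal.ofReal_pos.mpr hx).ne')
      (Or.inl ENNReal.ofReal_ne_top), ← ENNReal.ofReal_mul (Real.exp_pos _).le]
  refine ENNReal.ofReal_le_ofReal ?_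
  rwa [mul_comm, mul_comm c]

lemma CK.HR_of (h : CK K) (hn : 1 ≤ n) (hν : ν Kᶜ = 0)
    (hR : CondR (fun z => limsup (Phi K) (𝓝 z)) ν) : HR K ν := by
  intro ε hε z hz
  by_contra hc
  push Not at hc
  let i0 : Fin n := ⟨0, hn⟩
  let L : MvPolynomial (Fin n) ℂ := X i0 - C (z i0 - 1)
  have hL : degLex.Monic L := monic_X_sub_C degLex i0 _
  have hLd : ∀ i : ℕ, (L ^ i).totalDegree = i := fun i => by
    rw [← degree_degLexDegree, degree_pow, degree_X_sub_C]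
    simp
  set G := max (nK K L) 1 with hG
  have hG1 : 1 ≤ G := le_max_right _ _
  have hG0 := Real.log_nonneg hG1
  obtain ⟨c, hc'⟩ := exists_nat_ge ((2 * Real.log G + 3 * ε) / ε)
  rw [div_le_iff₀ hε] at hc'
  choose k hk p hp hI hpz using fun i : ℕ => hc (c * (i + 1))
  have hp0 : ∀ i, p i ≠ 0 := fun i h0 => by
    have := hpz i
    rw [h0, map_zero, norm_zero] at this
    exact absurd this (not_lt.mpr (Real.exp_pos _).le)
  have hd : ∀ i, (p i * L ^ (i + 1)).totalDegree = (p i).totalDegree + (i + 1) := fun i => by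
    rw [totalDegree_mul_of_isDomain (hp0 i) hL.pow.ne_zero, hLd]
  have h1 := hR (fun i => p i * L ^ (i + 1)) (fun i => mul_ne_zero (hp0 i) hL.pow.ne_zero)
    (tendsto_atTop_mono (fun i => by simp only [hd, id]; omega) tendsto_id) z
  have h2 := le_trans (le_limsup_of_frequently_le (a := ENNReal.ofReal (Real.exp (3 / 2 * ε)))
    (Frequently.of_forall fun i => ?_) ⟨⊤, by simp⟩) (h1.trans (h.star_le hz))
  · have := Real.exp_le_exp.mp ((ENNReal.ofReal_le_ofReal_iff (Real.exp_pos _).le).mp h2)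
    linarith
  rw [eLp_eq ν h.cpt hν]
  have e : ‖eval z (p i * L ^ (i + 1))‖ = ‖eval z (p i)‖ := by simp [L]
  rw [e]
  refine le_ratio (by rw [hd]; omega) (Real.sqrt_nonneg _) ((Real.exp_pos _).trans (hpz i))
    (le_trans ?_ (hpz i).le)
  have h3 : √(I2 ν (p i * L ^ (i + 1))) ≤ Real.exp ((i + 1 : ℕ) * Real.log G) := by
    rw [← Real.log_pow, Real.exp_log (by positivity), Real.sqrt_le_left (by positivity)]
    refine (h.int_le ν hν _ _).trans ((mul_le_of_le_one_right (sq_nonneg _) (hI i)).trans ?_)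
    refine pow_le_pow_left₀ (h.nK_nonneg _) (h.nK_le fun x hx => ?_) 2
    rw [map_pow, norm_pow]
    exact pow_le_pow_left₀ (norm_nonneg _) ((h.le_nK L hx).trans (le_max_left _ _)) _
  refine (mul_le_mul_of_nonneg_right h3 (Real.exp_pos _).le).trans ?_
  rw [← Real.exp_add, Real.exp_le_exp, hd]
  have h4 : ((p i).totalDegree : ℝ) ≤ k i := by exact_mod_cast hp i
  have h5 : (c : ℝ) * (i + 1) ≤ k i := by exact_mod_cast hk i
  have h6 := mul_le_mul_of_nonneg_right hc' (show (0 : ℝ) ≤ i + 1 by positivity)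
  push_cast
  nlinarith

lemma not_R (hK : IsCompact K) (hν : ν Kᶜ = 0)
    (hR : ¬CondR (fun z => limsup (Phi K) (𝓝 z)) ν) : ∃ (z : Fin n → ℂ) (r v ε : ℝ),
    0 < r ∧ 0 < ε ∧ (∀ y, ‖y - z‖ ≤ r → Phi K y ≤ ENNReal.ofReal (Real.exp v)) ∧
    ∀ m : ℕ, ∃ k ≥ m, ∃ p : MvPolynomial (Fin n) ℂ, p ≠ 0 ∧ p.totalDegree ≤ k ∧
      I2 ν p * Real.exp (k * (v + ε)) ^ 2 ≤ ‖eval z p‖ ^ 2 := by
  unfold CondR at hR
  push Not at hR
  obtain ⟨p, hp0, hpd, z, hz⟩ := hR
  obtain ⟨c0, hc0, h0, hz⟩ := ENNReal.lt_iff_exists_real_btwn.mp hz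
  obtain ⟨c1, -, h1, hz⟩ := ENNReal.lt_iff_exists_real_btwn.mp hz
  obtain ⟨c2, -, h2, hz⟩ := ENNReal.lt_iff_exists_real_btwn.mp hz
  have hc1 : c0 < c1 := (ENNReal.ofReal_lt_ofReal_iff_of_nonneg hc0).mp h1
  have hc2 : c1 < c2 := (ENNReal.ofReal_lt_ofReal_iff_of_nonneg (by linarith)).mp h2
  obtain ⟨r, hr, hr'⟩ := Metric.nhds_basis_closedBall.eventually_iff.mp
    (eventually_lt_of_limsup_lt (h0.trans h1))
  refine ⟨z, r, Real.log c1, Real.log c2 - Real.log c1, hr,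
    sub_pos.mpr (Real.log_lt_log (by linarith) hc2), fun y hy => ?_, fun m => ?_⟩
  · rw [Real.exp_log (by linarith)]
    exact (hr' (by simpa [dist_eq_norm] using hy)).le
  obtain ⟨j, hj1, hj2⟩ := ((frequently_lt_of_lt_limsup (by isBoundedDefault) hz).and_eventually
    (hpd.eventually (eventually_ge_atTop (max m 1)))).exists
  refine ⟨_, (le_max_left _ _).trans hj2, p j, hp0 j, le_rfl, ?_⟩
  rw [eLp_eq ν hK hν, ← Real.exp_log (show 0 < c2 by linarith)] at hj1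
  have h3 := pow_le_pow_left₀ (by positivity)
    (lt_ratio ((le_max_right _ _).trans hj2) (Real.sqrt_nonneg _) hj1).1 2
  rw [mul_pow, Real.sq_sqrt (I2_nonneg ν _)] at h3
  rwa [add_sub_cancel]

omit [IsFiniteMeasure ν] in
lemma CK.np_of (h : CK K) {z : Fin n → ℂ} {r v : ℝ} (hr : 0 < r)
    (hv : ∀ y, ‖y - z‖ ≤ r → Phi K y ≤ ENNReal.ofReal (Real.exp v)) : NP K := by
  refine ⟨h, max (Real.log ((1 + ‖z‖) / r + 1) + v) 0, le_max_right _ _, fun k p hp w hw => ?_⟩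
  refine (bw_ball p hp z w (r := r) (T := (1 + ‖z‖) / r) (by positivity) (by
    rw [div_mul_cancel₀ _ hr.ne']
    have := norm_sub_le w z
    linarith) fun y hy => h.bw (hv y hy) k p hp).trans ?_
  have e : ((1 + ‖z‖) / r + 1) ^ k = Real.exp (k * Real.log ((1 + ‖z‖) / r + 1)) := by
    rw [← Real.log_pow, Real.exp_log (by positivity)]
  rw [e, mul_left_comm, ← Real.exp_add, ← mul_add]
  have := h.nK_nonneg p
  gcongr
  exact le_max_left _ _

theorem main (hn : 1 ≤ n) (hK : IsCompact K) (hν : ν Kᶜ = 0) : ∃ δ : ℝ,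
    Tendsto (fun k : ℕ => maxVDM K k ^ ((1 : ℝ) / l n k)) atTop (𝓝 δ) ∧
    (CondR (fun z => limsup (Phi K) (𝓝 z)) ν ↔
      Tendsto (fun k : ℕ => Z ν k ^ ((1 : ℝ) / (2 * l n k))) atTop (𝓝 δ)) := by
  change ∃ δ : ℝ, Tendsto (fun k : ℕ => VV K k ^ ((1 : ℝ) / ll n k)) atTop (𝓝 δ) ∧
    (_ ↔ Tendsto (fun k : ℕ => ZZ ν k ^ ((1 : ℝ) / (2 * ll n k))) atTop (𝓝 δ))
  rcases K.eq_empty_or_nonempty with rfl | hne
  · have h0 : ν = 0 := by simpa using hν
    refine ⟨0, tendsto_const_nhds.congr' ?_, iff_of_true ?_ (tendsto_const_nhds.congr' ?_)⟩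
    · filter_upwards [eventually_gt_atTop 0] with k hk
      have := ll_pos hn hk
      have e : VV (∅ : Set (Fin n → ℂ)) k = 0 := by
        have : Nonempty (II n k) := ⟨ofF 0 (by simp)⟩
        simp [VV]
      rw [e, Real.zero_rpow (by positivity)]
    · by_contra hR
      obtain ⟨z, r, v, ε, hr, -, hv, -⟩ := not_R ν hK hν hR
      have := le_of_Phi (K := ∅) le_rfl (p := C ((Real.exp (v + 1) : ℝ) : ℂ)) (by simp) (by simp)
        (hv z (by simpa using hr.le))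
      rw [eval_C, Complex.norm_real, Real.norm_of_nonneg (Real.exp_pos _).le, Real.exp_le_exp] at this
      simp at this
      linarith
    · filter_upwards [eventually_gt_atTop 0] with k hk
      have := ll_pos hn hk
      have e : ZZ ν k = 0 := by
        have : Nonempty (II n k) := ⟨ofF 0 (by simp)⟩
        have h1 : (Measure.pi fun _ : II n k => ν) = 0 := by
          rw [← Measure.measure_univ_eq_zero, Measure.pi_univ]
          simp [h0]
        simp [ZZ, h1]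
      rw [e, Real.zero_rpow (by positivity)]
  have h : CK K := ⟨hK, hne⟩
  by_cases hN : NP K
  · refine ⟨_, hN.tendsto_rpow hn, fun hR => hN.Z_of_HR ν hn hν (h.HR_of ν hn hν hR),
      fun hZ => ?_⟩
    by_contra hR
    obtain ⟨z, r, v, ε, hr, hε, hv, hf⟩ := not_R ν hK hν hR
    exact hN.not_Z ν hn hν hr hε (fun y hy => h.bw (hv y hy)) hf hZ
  · refine ⟨0, h.polar hn hN, iff_of_true ?_ ?_⟩
    · by_contra hR
      obtain ⟨z, r, v, ε, hr, -, hv, -⟩ := not_R ν hK hν hR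
      exact hN (h.np_of hr hv)
    · obtain ⟨u, hu, hu'⟩ := h.upper ν hn hν (h.polar hn hN)
      exact squeeze_zero' (Eventually.of_forall fun k => Real.rpow_nonneg (ZZ_nonneg ν k) _) hu' hu

end Pool.Agent.H184Z.RZ
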